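import Pool.Agent.Lib.MP_7cdc3e_gt.C.T4.Geo
import Pool.Agent.Lib.AS.AllL
import Pool.Agent.Lib.AS.HC

/-!
# MP_7cdc3e_gt, T4 part 5, abstract form: (a8), four-dimensional faces contain two lines
-/

set_option autoImplicit false
set_option linter.unusedSectionVars false

open Module AS

namespace TightRP

namespace Geo5

open D1

/-- a compact set with a continuous bijection onto a set without cohomology in degree `n` -/
theorem zero_of_bij {X Y : Type} [MetricSpace X] [MetricSpace Y] {A : Set X} {C : Set Y} {f : X → Y}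
    (hA : IsCompact A) (hC : IsCompact C) (hf : ContinuousOn f A) (hm : ∀ x ∈ A, f x ∈ C)
    (hi : ∀ x ∈ A, ∀ y ∈ A, f x = f y → x = y) (hs : ∀ u ∈ C, ∃ x ∈ A, f x = u) (n : ℕ)
    (h0 : ∀ x : H (⊥ : Subgroup (Y ≃ᵢ Y)) ∅ n C, x = 0) :
    ∀ x : H (⊥ : Subgroup (X ≃ᵢ X)) ∅ n A, x = 0 := by
  have hfib : Fib (⊥ : Subgroup (X ≃ᵢ X)) ∅ A (⊥ : Subgroup (Y ≃ᵢ Y)) ∅ C f := {
    fb := ⟨⟨hA, IvS.bot A, Fr.bot A⟩, OkD.empty _, hf, fun g hg =>
      ⟨1, Subgroup.one_mem _, fun x => by rw [Subgroup.mem_bot.mp hg]; rfl⟩⟩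
    fin := by
      have : ((⊥ : Subgroup (Y ≃ᵢ Y)) : Set (Y ≃ᵢ Y)) = {1} := rfl
      rw [this]
      exact Set.finite_singleton _
    okS := ⟨hC, IvS.bot C, Fr.bot C⟩
    okD' := OkD.empty _
    maps := hm
    hD := fun _ _ => Iff.rfl }
  have h1 := okW1a X Y ⊥ ∅ A ∅ C f hfib (fun p hp _ => by
    obtain ⟨x, hx, hxp⟩ := hs p hp
    have h2 : ov A f {p} = {x} := by
      ext y
      constructor
      · rintro ⟨hy, hy'⟩
        have hy2 : f y = p := hy'
        exact hi y hy x hx (hy2.trans hxp.symm)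
      · intro hy
        have hy2 : y = x := hy
        subst hy2
        exact ⟨hx, hxp⟩
    rw [h2]
    exact acy_point okN1 okN2 ⊥ x) C hC subset_rfl n
  have h2 : ov A f C = A := by
    ext x
    exact ⟨fun hx => hx.1, fun hx => ⟨hx, hm x hx⟩⟩
  have key : ∀ A', A' = A → (∀ x : H (⊥ : Subgroup (X ≃ᵢ X)) ∅ n A', x = 0) →
      ∀ x : H (⊥ : Subgroup (X ≃ᵢ X)) ∅ n A, x = 0 := by
    rintro A' rfl h3
    exact h3
  refine key _ h2 fun x => ?_
  obtain ⟨y, rfl⟩ := h1.2 x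
  rw [h0 y, map_zero]

section two

variable {E : Type} [NormedAddCommGroup E] [InnerProductSpace ℝ E] [FiniteDimensional ℝ E]
variable {L Z : Set E} {lam : E →ₗ[ℝ] ℝ} {wz : Set E → Prop}

/-- a functional which is zero on a facet and nonnegative on the face -/
theorem exists_nu {F F₁ : Set E} (hF : Face L F) (hF₁ : Face L F₁) (hs : F₁ ⊆ F)
    (hd : sdim F₁ + 1 = sdim F) : ∃ ν : E →ₗ[ℝ] ℝ, (∀ x ∈ F, 0 ≤ ν x) ∧ (∀ x ∈ F₁, ν x = 0) ∧
      (∀ x ∈ Submodule.span ℝ F, ν x = 0 → x ∈ Submodule.span ℝ F₁) ∧ ∃ p ∈ F, 0 < ν p := by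
  have hne : ∃ p ∈ F, p ∉ F₁ := by
    by_contra hcon
    push Not at hcon
    have : F = F₁ := Set.Subset.antisymm (fun x hx => hcon x hx) hs
    rw [this] at hd
    omega
  obtain ⟨p, hp, hp₁⟩ := hne
  have hpV : p ∉ Submodule.span ℝ F₁ := fun h => hp₁ (face_span hF₁ p (hF.sub hp) h)
  obtain ⟨f, hf, hfk⟩ := Submodule.exists_le_ker_of_notMem hpV
  -- normalise the sign
  obtain ⟨ν, hν, hνk⟩ : ∃ ν : E →ₗ[ℝ] ℝ, 0 < ν p ∧ ∀ x ∈ Submodule.span ℝ F₁, ν x = 0 := by
    rcases lt_or_gt_of_ne hf with h | h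
    · exact ⟨-f, by simpa using h, fun x hx => by
        have : f x = 0 := hfk hx
        simp [this]⟩
    · exact ⟨f, h, fun x hx => hfk hx⟩
  have hker : ∀ x ∈ Submodule.span ℝ F, ν x = 0 → x ∈ Submodule.span ℝ F₁ := by
    have hsup : Submodule.span ℝ F₁ ⊔ (ℝ ∙ p) = Submodule.span ℝ F := by
      apply Submodule.eq_of_le_of_finrank_le
      · refine sup_le (Submodule.span_mono hs) ?_
        rw [Submodule.span_singleton_le_iff_mem]
        exact Submodule.subset_span hp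
      · have h1 : Submodule.span ℝ F₁ < Submodule.span ℝ F₁ ⊔ (ℝ ∙ p) := by
          refine lt_of_le_of_ne le_sup_left fun h2 => hpV ?_
          rw [h2]
          exact Submodule.mem_sup_right (Submodule.mem_span_singleton_self p)
        have h2 := Submodule.finrank_lt_finrank_of_lt h1
        unfold sdim at hd
        omega
    intro x hx hx0
    rw [← hsup] at hx
    obtain ⟨a, ha, b, hb, rfl⟩ := Submodule.mem_sup.mp hx
    obtain ⟨c, rfl⟩ := Submodule.mem_span_singleton.mp hb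
    rw [map_add, hνk a ha, map_smul, zero_add, smul_eq_mul] at hx0
    have hc : c = 0 := (mul_eq_zero.mp hx0).resolve_right hν.ne'
    rw [hc, zero_smul, add_zero]
    exact ha
  refine ⟨ν, fun x hx => ?_, fun x hx => hνk x (Submodule.subset_span hx), hker, p, hp, hν⟩
  by_contra hneg
  push Not at hneg
  set s : ℝ := -ν x / ν p with hs'
  have hs0 : 0 < s := div_pos (by linarith) hν
  have h1 : x + s • p ∈ F := hF.cone.add _ hx _ (hF.cone.smul _ hs0.le _ hp)
  have h2 : ν (x + s • p) = 0 := by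
    rw [map_add, map_smul, smul_eq_mul, hs', div_mul_cancel₀ _ hν.ne']
    ring
  have h3 : x + s • p ∈ F₁ :=
    face_span hF₁ _ (hF.sub h1) (hker _ (Submodule.subset_span h1) h2)
  have h4 : x ∈ F₁ := hF₁.ext x (hF.sub hx) (s • p) (hF.sub (hF.cone.smul _ hs0.le _ hp)) h3
  have h5 := hνk x (Submodule.subset_span h4)
  linarith

/-- the last point of a ray in a closed pointed cone -/
theorem exists_last (hL : CPC L) (hp : PosOn L lam) {F : Set E} (hF : Face L F) {q u : E}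
    (hu : lam u = 0) (hu0 : u ≠ 0) (h : ∃ t : ℝ, 0 < t ∧ q + t • u ∈ F) :
    ∃ t : ℝ, 0 < t ∧ q + t • u ∈ F ∧ ∀ s, t < s → q + s • u ∉ F := by
  have hFc : IsClosed F := (tFaceC tFace E L F hL hF).closed
  set T : Set ℝ := {t | 0 ≤ t ∧ q + t • u ∈ F} with hT
  have hTc : IsClosed T := by
    refine isClosed_Ici.inter (hFc.preimage ?_)
    fun_prop
  have hTb : BddAbove T := by
    by_contra hcon
    rw [not_bddAbove_iff] at hcon
    -- `u` is in the cone
    have hmem : u ∈ F := by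
      have hseq : ∀ n : ℕ, ∃ t : ℝ, (n : ℝ) < t ∧ 0 ≤ t ∧ q + t • u ∈ F := by
        intro n
        obtain ⟨t, ht, hn⟩ := hcon n
        exact ⟨t, hn, ht.1, ht.2⟩
      choose t ht1 ht2 ht3 using hseq
      have h2 : Filter.Tendsto (fun n => (t n)⁻¹ • (q + t n • u)) Filter.atTop (nhds u) := by
        have h3 : Filter.Tendsto (fun n => (t n)⁻¹) Filter.atTop (nhds 0) := by
          refine tendsto_inv_atTop_zero.comp ?_
          exact Filter.tendsto_atTop_mono (fun n => (ht1 n).le) tendsto_natCast_atTop_atTop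
        have h4 : Filter.Tendsto (fun n => (t n)⁻¹ • q + u) Filter.atTop (nhds ((0 : ℝ) • q + u)) :=
          (h3.smul_const q).add_const u
        rw [zero_smul, zero_add] at h4
        refine h4.congr' ?_
        filter_upwards [Filter.eventually_gt_atTop 0] with n hn
        have h5 : 0 < t n := lt_of_le_of_lt (Nat.cast_nonneg n) (ht1 n)
        rw [smul_add, smul_smul, inv_mul_cancel₀ h5.ne', one_smul]
      refine hFc.mem_of_tendsto h2 (Filter.Eventually.of_forall fun n => ?_)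
      exact hF.cone.smul _ (inv_nonneg.mpr (ht2 n)) _ (ht3 n)
    exact (hp u (hF.sub hmem) hu0).ne' hu
  obtain ⟨t, ht, h1⟩ := h
  have hne : T.Nonempty := ⟨t, ht.le, h1⟩
  refine ⟨sSup T, lt_of_lt_of_le ht (le_csSup hTb ⟨ht.le, h1⟩), (hTc.csSup_mem hne hTb).2, ?_⟩
  intro s hs hs'
  have h2 : s ∈ T := ⟨le_trans (le_trans ht.le (le_csSup hTb ⟨ht.le, h1⟩)) hs.le, hs'⟩
  exact absurd (le_csSup hTb h2) (not_le.mpr hs)

/-- the last point of a ray is not in the relative interior -/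
theorem last_not_ri {F : Set E} (hF : IsCone F) {q u : E} (hu : u ∈ Submodule.span ℝ F) {t : ℝ}
    (h : ∀ s, t < s → q + s • u ∉ F) : ¬ Ri F (q + t • u) := by
  intro h1
  obtain ⟨s, hs, h2⟩ := h1.move hF hu
  refine h (t + s) (by linarith) ?_
  have h3 := h2 s hs.le le_rfl
  rwa [add_assoc, ← add_smul] at h3

/-- (a8): a four-dimensional face which is not thin contains two lines -/
theorem WZ.two (h : WZ L Z lam wz) {F : Set E} (hF : Face L F) (hFZ : ¬ F ⊆ Z)
    (h4 : sdim F = 4) : ∃ G₁ G₂, G₁ ≠ G₂ ∧ G₁ ⊆ F ∧ G₂ ⊆ F ∧ Line L Z G₁ ∧ Line L Z G₂ := by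
  obtain ⟨F₁, hs, hF₁, hF₁Z, h3⟩ := h.line _ F hF hFZ rfl
  by_contra hcon
  have hu : ∀ G, G ⊆ F → Line L Z G → G = F₁ := by
    intro G hG hGl
    by_contra hne
    exact hcon ⟨G, F₁, hne, hG, hs, hGl, hF₁, hF₁Z, h3⟩
  obtain ⟨ν, hν0, hν1, hνk, p₀, hp₀, hνp₀⟩ := exists_nu hF hF₁ hs (by omega)
  have hpF : PosOn F lam := fun x hx hx0 => h.pos x (hF.sub hx) hx0
  have hpF₁ : PosOn F₁ lam := fun x hx hx0 => h.pos x (hF₁.sub hx) hx0
  have h0 : ∃ x ∈ F₁, x ≠ 0 := by
    by_contra hc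
    push Not at hc
    exact hF₁Z fun x hx => by rw [hc x hx]; exact h.zero
  obtain ⟨q, hq, hq1⟩ := bs_ri hF₁.cone hpF₁ h0
  have hqF : q ∈ F := hs hq.1
  have hνq : ν q = 0 := hν1 q hq.1
  -- a point `p` of the base with `ν p > 0`
  obtain ⟨p, hp, hp1, hνp⟩ : ∃ p ∈ F, lam p = 1 ∧ 0 < ν p := by
    have h5 : p₀ ≠ 0 := by
      rintro rfl
      rw [map_zero] at hνp₀
      exact lt_irrefl _ hνp₀
    have h6 : 0 < lam p₀ := hpF p₀ hp₀ h5
    refine ⟨(lam p₀)⁻¹ • p₀, hF.cone.smul _ (inv_nonneg.mpr h6.le) _ hp₀, ?_, ?_⟩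
    · rw [map_smul, smul_eq_mul, inv_mul_cancel₀ h6.ne']
    · rw [map_smul, smul_eq_mul]
      exact mul_pos (inv_pos.mpr h6) hνp₀
  set U : Submodule ℝ E := Submodule.span ℝ F ⊓ LinearMap.ker lam with hU
  have hUmem : ∀ x ∈ F, lam x = 1 → x - q ∈ U := fun x hx hx1 =>
    ⟨Submodule.sub_mem _ (Submodule.subset_span hx) (Submodule.subset_span hqF), by
      show lam (x - q) = 0
      rw [map_sub, hx1, hq1, sub_self]⟩
  -- the direction `v₀`
  obtain ⟨v₀, hv₀U, hv₀1, hv₀⟩ : ∃ v₀ ∈ U, ‖v₀‖ = 1 ∧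
      ∀ u ∈ U, (0 ≤ inner ℝ v₀ u ↔ 0 ≤ ν u) := by
    set f : U →L[ℝ] ℝ := LinearMap.toContinuousLinearMap (ν.domRestrict U) with hf
    set v : U := (InnerProductSpace.toDual ℝ U).symm f with hv
    have hvi : ∀ u : U, inner ℝ (v : E) (u : E) = ν u := by
      intro u
      have h5 : inner ℝ v u = f u := InnerProductSpace.toDual_symm_apply
      rw [← Submodule.coe_inner, h5]
      rfl
    have hv0 : (v : E) ≠ 0 := by
      intro h5
      have h6 := hvi ⟨p - q, hUmem p hp hp1⟩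
      rw [h5, inner_zero_left] at h6
      have h7 : ν (p - q) = 0 := h6.symm
      rw [map_sub, hνq, sub_zero] at h7
      exact hνp.ne' h7
    have hn : 0 < ‖(v : E)‖ := norm_pos_iff.mpr hv0
    refine ⟨‖(v : E)‖⁻¹ • (v : E), U.smul_mem _ v.2, ?_, fun u hu => ?_⟩
    · rw [norm_smul, norm_inv, norm_norm, inv_mul_cancel₀ hn.ne']
    · rw [real_inner_smul_left, hvi ⟨u, hu⟩]
      exact mul_nonneg_iff_of_pos_left (inv_pos.mpr hn)
  have hA : ∀ x, x ∈ SZ Z lam ∩ F ↔ x ∈ F ∧ lam x = 1 ∧ ¬ Ri F x ∧ ¬ Ri F₁ x := by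
    intro x
    constructor
    · rintro ⟨⟨hxZ, hx1⟩, hxF⟩
      exact ⟨hxF, hx1, fun h5 => h.ri_notMem hF hFZ h5 hxZ,
        fun h5 => h.ri_notMem hF₁ hF₁Z h5 hxZ⟩
    · rintro ⟨hxF, hx1, hxr, hxr₁⟩
      refine ⟨⟨?_, hx1⟩, hxF⟩
      by_contra hxZ
      have hxL := hF.sub hxF
      have hG := fg_face h.cpc.cone hxL
      have hGF := fg_sub h.cpc.cone hF hxF
      have hGZ : ¬ Fg L x ⊆ Z := fun h5 => hxZ (h5 (fg_mem h.cpc.cone hxL))
      obtain ⟨G', hG', hG'l⟩ := h.line _ (Fg L x) hG hGZ rfl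
      have hG'F := hu G' (hG'.trans hGF) hG'l
      rw [hG'F] at hG'
      have h5 : sdim (Fg L x) ≤ sdim F₁ := by
        by_contra h6
        push Not at h6
        have h7 := (tFace E L _ hG).2.1 F hF hGF (by omega)
        exact hxr (ri_of_fg h.cpc.cone hF hxF h7.symm.subset)
      have h6 := (tFace E L F₁ hF₁).2.1 _ hG hG' h5
      have hxF₁ : x ∈ F₁ := by
        rw [h6]
        exact fg_mem h.cpc.cone hxL
      exact hxr₁ (ri_of_fg h.cpc.cone hF₁ hxF₁ h6.subset)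
  -- points strictly inside of a ray
  have hray : ∀ (u : E) (t s : ℝ), 0 < t → t < s → q + s • u ∈ F →
      Ri F₁ (q + t • u) ∨ Ri F (q + t • u) := by
    intro u t s ht hts hy
    have hs0 : 0 < s := ht.trans hts
    have h5 : 0 < 1 - t / s := by
      rw [sub_pos, div_lt_one hs0]
      exact hts
    have h6 : 0 < t / s := div_pos ht hs0
    have hx : q + t • u = (1 - t / s) • q + (t / s) • (q + s • u) := by
      have h7 : (t / s) • s • u = t • u := by rw [smul_smul, div_mul_cancel₀ _ hs0.ne']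
      rw [smul_add, h7]
      module
    by_cases hy₁ : q + s • u ∈ F₁
    · left
      rw [hx]
      exact Ri.add hF₁.cone hq (hF₁.cone.smul _ h6.le _ hy₁) h5
    · right
      have hxF : q + t • u ∈ F := by
        rw [hx]
        exact hF.cone.add _ (hF.cone.smul _ h5.le _ hqF) _ (hF.cone.smul _ h6.le _ hy)
      have hxL := hF.sub hxF
      have hG := fg_face h.cpc.cone hxL
      have hGF := fg_sub h.cpc.cone hF hxF
      have hF₁G : F₁ ⊆ Fg L (q + t • u) := by
        intro z hz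
        obtain ⟨hzL, r, hr, h7⟩ := fg_of_ri hF₁ hq hz
        refine ⟨hzL, (1 - t / s) * r, mul_pos h5 hr, ?_⟩
        have h8 : q + t • u - ((1 - t / s) * r) • z =
            (1 - t / s) • (q - r • z) + (t / s) • (q + s • u) := by
          rw [hx, mul_smul]
          module
        rw [h8]
        exact h.cpc.cone.add _ (h.cpc.cone.smul _ h5.le _ h7) _
          (h.cpc.cone.smul _ h6.le _ (hF.sub hy))
      have hyG : q + s • u ∈ Fg L (q + t • u) := by
        refine ⟨hF.sub hy, t / s, h6, ?_⟩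
        have h8 : q + t • u - (t / s) • (q + s • u) = (1 - t / s) • q := by
          rw [hx]
          module
        rw [h8]
        exact h.cpc.cone.smul _ h5.le _ (hF.sub hqF)
      have h9 : sdim F ≤ sdim (Fg L (q + t • u)) := by
        by_contra h10
        push Not at h10
        have h11 := (tFace E L F₁ hF₁).2.1 _ hG hF₁G (by omega)
        exact hy₁ (h11 ▸ hyG)
      have h10 := (tFace E L _ hG).2.1 F hF hGF h9
      exact ri_of_fg h.cpc.cone hF hxF h10.symm.subset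
  refine h.i10 hF hFZ (h.h1 _ Set.inter_subset_left (h.sec_compact hF) ?_)
  have hacy := P33.hS_acy U hv₀U hv₀1
  have hxq : ∀ x ∈ SZ Z lam ∩ F, x ≠ q := by
    rintro x hx rfl
    exact ((hA x).mp hx).2.2.2 hq
  have hfm : ∀ x ∈ SZ Z lam ∩ F, ‖x - q‖⁻¹ • (x - q) ∈ P33.hS U v₀ := by
    intro x hx
    have h5 := (hA x).mp hx
    have h6 := hUmem x h5.1 h5.2.1
    have hn : 0 < ‖x - q‖ := norm_pos_iff.mpr (sub_ne_zero.mpr (hxq x hx))
    refine ⟨⟨U.smul_mem _ h6, ?_⟩, ?_⟩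
    · rw [norm_smul, norm_inv, norm_norm, inv_mul_cancel₀ hn.ne']
    · rw [hv₀ _ (U.smul_mem _ h6), map_smul, map_sub, hνq, sub_zero, smul_eq_mul]
      exact mul_nonneg (inv_nonneg.mpr hn.le) (hν0 x h5.1)
  refine zero_of_bij (f := fun x => ‖x - q‖⁻¹ • (x - q)) (C := P33.hS U v₀) (h.sec_compact hF)
    (P33.hS_compact U v₀) ?_ hfm ?_ ?_ 1 (fun x => hacy.2.2 0 x)
  · refine ContinuousOn.smul (ContinuousOn.inv₀ ?_ ?_) ?_
    · exact Continuous.continuousOn (by fun_prop)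
    · intro x hx
      exact norm_ne_zero_iff.mpr (sub_ne_zero.mpr (hxq x hx))
    · exact Continuous.continuousOn (by fun_prop)
  · -- injective
    have key : ∀ x ∈ SZ Z lam ∩ F, ∀ y ∈ SZ Z lam ∩ F,
        ‖x - q‖⁻¹ • (x - q) = ‖y - q‖⁻¹ • (y - q) → ¬ ‖x - q‖ < ‖y - q‖ := by
      intro x hx y hy hxy hlt
      have hnx : 0 < ‖x - q‖ := norm_pos_iff.mpr (sub_ne_zero.mpr (hxq x hx))
      have hny : 0 < ‖y - q‖ := norm_pos_iff.mpr (sub_ne_zero.mpr (hxq y hy))
      have h5 : x = q + ‖x - q‖ • (‖x - q‖⁻¹ • (x - q)) := by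
        rw [smul_smul, mul_inv_cancel₀ hnx.ne', one_smul, add_sub_cancel]
      have h6 : y = q + ‖y - q‖ • (‖x - q‖⁻¹ • (x - q)) := by
        rw [hxy, smul_smul, mul_inv_cancel₀ hny.ne', one_smul, add_sub_cancel]
      have hyF := ((hA y).mp hy).1
      have hx' := (hA x).mp hx
      have h7 := hray (‖x - q‖⁻¹ • (x - q)) ‖x - q‖ ‖y - q‖ hnx hlt (by rw [← h6]; exact hyF)
      rw [← h5] at h7
      rcases h7 with h7 | h7
      · exact hx'.2.2.2 h7
      · exact hx'.2.2.1 h7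
    intro x hx y hy hxy
    have hxy' : ‖x - q‖⁻¹ • (x - q) = ‖y - q‖⁻¹ • (y - q) := hxy
    have h5 : ‖x - q‖ = ‖y - q‖ :=
      le_antisymm (not_lt.mp (key y hy x hx hxy'.symm)) (not_lt.mp (key x hx y hy hxy'))
    rw [← h5] at hxy'
    have hnx : 0 < ‖x - q‖ := norm_pos_iff.mpr (sub_ne_zero.mpr (hxq x hx))
    have h6 := smul_right_injective E (inv_ne_zero hnx.ne') hxy'
    exact sub_left_injective h6
  · -- surjective
    rintro u ⟨⟨huU, hu1⟩, hu2⟩
    have hνu : 0 ≤ ν u := (hv₀ u huU).mp hu2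
    have hulam : lam u = 0 := huU.2
    have hu0 : u ≠ 0 := by
      rintro rfl
      rw [norm_zero] at hu1
      exact zero_ne_one hu1
    have hex : ∃ t : ℝ, 0 < t ∧ q + t • u ∈ F := by
      rcases hνu.eq_or_lt with h5 | h5
      · obtain ⟨t₀, ht₀, h6⟩ := hq.move hF₁.cone (hνk u huU.1 h5.symm)
        exact ⟨t₀, ht₀, hs (h6 t₀ ht₀.le le_rfl)⟩
      · set a : ℝ := ν u / ν p with ha
        have ha0 : 0 < a := div_pos h5 hνp
        have hv : u - a • (p - q) ∈ Submodule.span ℝ F₁ := by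
          refine hνk _ (Submodule.sub_mem _ huU.1 (Submodule.smul_mem _ _ (hUmem p hp hp1).1)) ?_
          rw [map_sub, map_smul, map_sub, hνq, sub_zero, smul_eq_mul, ha,
            div_mul_cancel₀ _ hνp.ne', sub_self]
        obtain ⟨t₀, ht₀, h6⟩ := hq.move hF₁.cone hv
        set t : ℝ := min (t₀ / 2) (1 / (2 * a)) with ht
        have ht0 : 0 < t := by positivity
        have h7 : 2 * t ≤ t₀ := by
          have := min_le_left (t₀ / 2) (1 / (2 * a))
          linarith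
        have h8 : t * a ≤ 1 / 2 := by
          have h9 := min_le_right (t₀ / 2) (1 / (2 * a))
          have h10 : t * a ≤ 1 / (2 * a) * a := mul_le_mul_of_nonneg_right h9 ha0.le
          have h11 : 1 / (2 * a) * a = 1 / 2 := by field_simp
          linarith
        refine ⟨t, ht0, ?_⟩
        have h9 : q + t • u = (1 / 2 - t * a) • q + (1 / 2 : ℝ) • (q + (2 * t) • (u - a • (p - q))) +
            (t * a) • p := by
          module
        rw [h9]
        refine hF.cone.add _ (hF.cone.add _ (hF.cone.smul _ (by linarith) _ hqF) _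
          (hF.cone.smul _ (by norm_num) _ (hs (h6 _ (by linarith) h7)))) _
          (hF.cone.smul _ (by positivity) _ hp)
    obtain ⟨t, ht, h5, h6⟩ := exists_last h.cpc h.pos hF hulam hu0 hex
    refine ⟨q + t • u, (hA _).mpr ⟨h5, ?_, last_not_ri hF.cone huU.1 h6, ?_⟩, ?_⟩
    · rw [map_add, map_smul, hulam, hq1, smul_zero, add_zero]
    · rcases hνu.eq_or_lt with h7 | h7
      · exact last_not_ri hF₁.cone (hνk u huU.1 h7.symm) fun s hs' h8 => h6 s hs' (hs h8)
      · intro h8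
        have h9 := hν1 _ h8.1
        rw [map_add, map_smul, hνq, zero_add, smul_eq_mul] at h9
        exact (mul_pos ht h7).ne' h9
    · show ‖q + t • u - q‖⁻¹ • (q + t • u - q) = u
      rw [add_sub_cancel_left, norm_smul, hu1, mul_one, Real.norm_eq_abs, abs_of_pos ht, smul_smul,
        inv_mul_cancel₀ ht.ne', one_smul]

end two

end Geo5

end TightRP
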