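import Pool.Agent.Lib.MP_7cdc3e_gt.C.T45
import Pool.Agent.Lib.MP_7cdc3e_gt.C.T4b.Spec
import Pool.Agent.Lib.MP_7cdc3e_gt.C.T4c.Spec

/-!
# MP_7cdc3e_gt, C32: the exports of section T4a, in the language of `C/Defs`
-/

set_option autoImplicit false

open Module

namespace TightRP

namespace C3

/-- a face of the cone of `z` which is not thin -/
structure NThin (ev : W →ₗ[ℝ] (RP3 → ℝ)) (z : RP3) (Φ : Set W) : Prop where
  face : IsFace ev Φ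
  sub : Φ ⊆ Nf ev z
  nt : ∃ g ∈ Φ, g ≠ 0 ∧ g ∉ T2set ev

/-- Lemma N: for `k` in the span of the cone of `z` one of `{k > 0}`, `{k < 0}` is even -/
def LNStmt : Prop := ∀ (F : Type) [Field F] (ev : W →ₗ[ℝ] (RP3 → ℝ)), CSys F ev →
  ∀ z, Reg ev z → ∀ k ∈ Submodule.span ℝ (Nf ev z),
    Even {y | 0 < ev k y} ∨ Even {y | ev k y < 0}

/-- (a3): the kernel of a limit of evaluations is not thin -/
def A3Stmt : Prop := ∀ (F : Type) [Field F] (ev : W →ₗ[ℝ] (RP3 → ℝ)), CSys F ev →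
  ∀ z, Reg ev z → ∀ h : KK ev z, RI (Nf ev z) (h : W) →
    ∀ e ∈ C32.T4b.E1 (ev.comp (KK ev z).subtype) h,
      ∃ g : KK ev z, (g : W) ∈ Nf ev z ∧ e g = 0 ∧ g ≠ 0 ∧ (g : W) ∉ T2set ev

/-- (a4): a not thin face contains a not thin face of dimension three -/
def A4Stmt : Prop := ∀ (F : Type) [Field F] (ev : W →ₗ[ℝ] (RP3 → ℝ)), CSys F ev →
  ∀ z, Reg ev z → ∀ Φ, NThin ev z Φ → ∃ G, G ⊆ Φ ∧ NThin ev z G ∧ dm G = 3

/-- (a5): two not thin faces meet -/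
def A5Stmt : Prop := ∀ (F : Type) [Field F] (ev : W →ₗ[ℝ] (RP3 → ℝ)), CSys F ev →
  ∀ z, Reg ev z → ∀ Φ Ψ, NThin ev z Φ → NThin ev z Ψ → ∃ g ∈ Φ, g ∈ Ψ ∧ g ≠ 0

/-- (a8): a not thin face of dimension four contains two not thin faces of dimension three -/
def A8Stmt : Prop := ∀ (F : Type) [Field F] (ev : W →ₗ[ℝ] (RP3 → ℝ)), CSys F ev →
  ∀ z, Reg ev z → ∀ Φ, NThin ev z Φ → dm Φ = 4 →
    ∃ G₁ G₂, G₁ ≠ G₂ ∧ G₁ ⊆ Φ ∧ G₂ ⊆ Φ ∧ (NThin ev z G₁ ∧ dm G₁ = 3) ∧ NThin ev z G₂ ∧ dm G₂ = 3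

end C3

end TightRP
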