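import Pool.Agent.Lib.MP_7cdc3e_gt.C.T12.Defs
import Pool.Agent.Lib.MP_7cdc3e_gt.C.T4.Geo8
import Pool.Agent.Lib.MP_7cdc3e_gt.C.T4.Spec
import Pool.Agent.Lib.AS.Tot
import Pool.Agent.Lib.AS.AllL

/-!
# MP_7cdc3e_gt, C32, T4 part 5: (a3), (a4), (a5), (a8)

The abstract theorems of `C/T4/Geo`, `C/T4/Geo8` applied to the cone `Nf ev z` and the class `w`.
Hypotheses: `NmStmt`, `TFStmt` (T1), `WFStmt` (the class `w` exists), `W2Stmt` (`w² ≠ 0` over a regular point),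
`Blk2Stmt` (Blocking 2).
-/

set_option autoImplicit false

open Module AS

namespace TightRP

namespace C3

/-- the class `w` exists -/
def WFStmt : Prop := ∀ (F : Type) [Field F] (ev : W →ₗ[ℝ] (RP3 → ℝ)) (lam : W →ₗ[ℝ] ℝ),
  TF F ev lam → ∃ w, WF F ev lam w

/-- `w² ≠ 0` on the normalized functions of type two which vanish at a regular point -/
def W2Stmt : Prop := ∀ (F : Type) [Field F] (ev : W →ₗ[ℝ] (RP3 → ℝ)) (lam : W →ₗ[ℝ] ℝ)
  (w : H (⊥ : Subgroup (W ≃ᵢ W)) ∅ 1 (E2 ev lam)), WF F ev lam w →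
  ∀ z, Reg ev z → sq (res (SF_sub lam (Nf ev z)) 1 w) ≠ 0

/-- Blocking 2: `w` vanishes on compact sets disjoint from a face which is not thin -/
def Blk2Stmt : Prop := ∀ (F : Type) [Field F] (ev : W →ₗ[ℝ] (RP3 → ℝ)), CSys F ev →
  ∀ z, Reg ev z → ∀ Φ, IsFace ev Φ → Φ ⊆ Nf ev z → (∃ f ∈ Φ, f ≠ 0 ∧ f ∉ T2set ev) →
    ∀ Q, IsCompact Q → (∀ g ∈ Q, g ∈ Nf ev z ∧ g ∈ T2set ev) → Q ∩ Φ = ∅ →
      ∀ e > 0, W0 ev Q e

section

variable {F : Type} [Field F] {ev : W →ₗ[ℝ] (RP3 → ℝ)} {lam : W →ₗ[ℝ] ℝ}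

/-- the normalized functions of type two form a compact set -/
theorem TF.E2_compact (h : TF F ev lam) : IsCompact (E2 ev lam) := by
  have h1 : E2 ev lam = PF lam (Cn ev) ∩ {g | g ∈ Cn ev ∧ Ty ev 2 g} := by
    ext g
    constructor
    · rintro ⟨h1, h2⟩
      have h3 := (h.t2 g).mp h1
      exact ⟨⟨h3.1, h2⟩, h3.1, h3.2.2⟩
    · rintro ⟨⟨h1, h2⟩, -, h3⟩
      refine ⟨(h.t2 g).mpr ⟨h1, ?_, h3⟩, h2⟩
      rintro rfl
      rw [map_zero] at h2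
      exact zero_ne_one h2
  rw [h1]
  exact h.cpt.inter_right (h.clo 2)

/-- the first projection of `VE ev Q e` induces a bijection -/
theorem TF.p_bij (h : TF F ev lam) {Q : Set W} (hQ : Q ⊆ E2 ev lam) (hc : IsCompact Q) {e : ℝ}
    (he : 0 < e) (hne : ∀ g ∈ Q, ∃ x, e ≤ ev g x)
    (hA : Adm (Pm2 W) ∅ (VE ev Q e) (⊥ : Subgroup (W ≃ᵢ W)) ∅ Q Prod.fst) (n : ℕ) :
    Function.Bijective (pull Prod.fst hA n) := by
  have hT : AS.Tot (VE ev Q e) Q Sp := {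
    cpt := (tot_VE h.sys hc e).cE
    neg := (tot_VE h.sys hc e).in2.neg
    m1 := fun p hp => hp.1
    m2 := fun p hp => hp.2.1
    cP := hc
    cX := ⟨Metric.isClosed_sphere, subset_rfl, AS.ivS_Pm.mpr fun _ hx => neg_mem_Sp hx⟩ }
  refine hT.vb1 okW1a (fun g hg => ?_) hA n
  have h1 : {x | (g, x) ∈ VE ev Q e} = up {x | e ≤ ev g x} := fib_VE hg
  rw [h1]
  exact h.ve g (hQ hg).1 e he (hne g hg)

variable {w : H (⊥ : Subgroup (W ≃ᵢ W)) ∅ 1 (E2 ev lam)}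

/-- `w` vanishes on `Q` if `a` vanishes on `VE ev Q e` -/
theorem WF.res_zero (h : WF F ev lam w) : ∃ e₀ > 0, ∀ (Q : Set W) (hQ : Q ⊆ E2 ev lam),
    IsCompact Q → ∀ e, 0 < e → e ≤ e₀ → W0 ev Q e → res hQ 1 w = 0 := by
  obtain ⟨e₀, he₀, h1, h2⟩ := h.wv
  refine ⟨e₀, he₀, fun Q hQ hc e he hee h3 => ?_⟩
  have hT := tot_VE h.sys h.toTF.E2_compact e
  have hT' := tot_VE h.sys hc e
  have h4 := h2 e he hee hT
  have hne : ∀ g ∈ Q, ∃ x, e ≤ ev g x := fun g hg => by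
    obtain ⟨x, hx⟩ := h1 g (hQ hg)
    exact ⟨x, hee.trans hx⟩
  have hb := h.toTF.p_bij hQ hc he hne (adm_fst (∅ : Set W) hT'.m1) 1
  apply hb.1
  rw [map_zero]
  have h5 : pull Prod.fst (adm_fst (∅ : Set W) hT'.m1) 1 (res hQ 1 w) =
      res (VE_mono hQ le_rfl) 1 (hT.p 1 w) :=
    (res_pull (adm_fst (∅ : Set W) hT.m1) (adm_fst (∅ : Set W) hT'.m1)
      (VE_mono hQ le_rfl) hQ w).symm
  rw [h5, h4]
  have h6 := res_av (fun p hp => hT.in2.sub p hp) (fun p hp => (VE_in2 ev Q e).sub p hp)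
    (VE_mono hQ (le_refl e))
  exact h6.trans h3

/-- the constant section: `w` vanishes on the sets of functions which do not vanish at a point -/
theorem WF.sect (h : WF F ev lam w) {Q : Set W} (hQ : Q ⊆ E2 ev lam) (hc : IsCompact Q) (y : RP3)
    (hy : ∀ g ∈ Q, 0 < ev g y) : res hQ 1 w = 0 := by
  obtain ⟨e₀, he₀, h1, h2⟩ := h.wv
  obtain ⟨e, he, hee, hle⟩ : ∃ e, 0 < e ∧ e ≤ e₀ ∧ ∀ g ∈ Q, e ≤ ev g y := by
    rcases Q.eq_empty_or_nonempty with rfl | hn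
    · exact ⟨e₀, he₀, le_rfl, fun g hg => hg.elim⟩
    · have hcy : Continuous fun g : W => ev g y := by
        have := (ev_cont h.sys).comp (continuous_id.prodMk (continuous_const (y := y)))
        exact this
      obtain ⟨g₀, hg₀, hmin⟩ := hc.exists_isMinOn hn hcy.continuousOn
      refine ⟨min (ev g₀ y) e₀, lt_min (hy g₀ hg₀) he₀, min_le_right _ _, fun g hg => ?_⟩
      exact (min_le_left _ _).trans (hmin hg)
  obtain ⟨x, hx, rfl⟩ := pj_surj y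
  have hT := tot_VE h.sys h.toTF.E2_compact e
  have h4 := h2 e he hee hT
  -- the section
  have hs : Adm (⊥ : Subgroup (W ≃ᵢ W)) ∅ Q (Pm2 W) ∅ (VE ev (E2 ev lam) e)
      (fun g : W => (g, x)) := by
    refine ⟨fun g hg => ⟨hQ hg, hx, hle g hg⟩, fun _ _ hp => hp, fun ε hε =>
      ⟨ε, hε, fun g _ g' _ hd => ?_⟩, ?_⟩
    · rw [Prod.dist_eq, dist_self]
      exact max_lt hd hε
    · intro g hg
      refine ⟨1, Subgroup.one_mem _, fun x => ?_⟩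
      rw [Subgroup.mem_bot.mp hg]
      rfl
  have h5 : pull (fun g : W => (g, x)) hs 1 (hT.p 1 w) = res hQ 1 w := by
    unfold Tot.p
    rw [pull_pull (adm_fst (∅ : Set W) hT.m1) hs]
    rfl
  have hk : Adm (⊥ : Subgroup (W ≃ᵢ W)) ∅ Q (Pm E4) ∅ Sp (fun _ : W => x) :=
    (adm_snd (∅ : Set E4) hT.in2.sub).comp hs
  have h6 : pull (fun g : W => (g, x)) hs 1 (ak 1 hT.in2) =
      pull (fun _ : W => x) hk 1 (ap 1 Sp zero_notMem_Sp) := by
    unfold ak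
    rw [pull_pull (adm_snd (∅ : Set E4) hT.in2.sub) hs]
  rw [← h5, h4, h6]
  -- factor through the point
  have hk1 : Adm (⊥ : Subgroup (W ≃ᵢ W)) ∅ Q (⊥ : Subgroup (E4 ≃ᵢ E4)) ∅ {x}
      (fun _ : W => x) := by
    refine ⟨fun _ _ => rfl, fun _ _ hp => hp, fun ε hε => ⟨ε, hε, fun _ _ _ _ _ => ?_⟩, ?_⟩
    · rw [dist_self]
      exact hε
    · exact fun g _ => ⟨1, Subgroup.one_mem _, fun _ => rfl⟩
  have hk2 : Adm (⊥ : Subgroup (E4 ≃ᵢ E4)) ∅ {x} (Pm E4) ∅ Sp (fun y : E4 => y) :=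
    Adm.id' bot_le (Set.singleton_subset_iff.mpr hx) fun _ _ hp => hp
  have h7 : pull (fun _ : W => x) hk 1 (ap 1 Sp zero_notMem_Sp) =
      pull (fun _ : W => x) hk1 1 (pull (fun y : E4 => y) hk2 1 (ap 1 Sp zero_notMem_Sp)) := by
    rw [pull_pull hk2 hk1]
  rw [h7, okN1 E4 ⊥ ∅ {x} 0 (Set.finite_singleton x)
    (pull (fun y : E4 => y) hk2 1 (ap 1 Sp zero_notMem_Sp)), map_zero]

end

/-! ## the cone `Nf ev z` -/

section cone

variable {ev : W →ₗ[ℝ] (RP3 → ℝ)}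

theorem nf_cpc {F : Type} [Field F] (h : CSys F ev) (z : RP3) : D1.CPC (Nf ev z) where
  cone := {
    zero := ⟨fun x => by rw [map_zero]; exact le_rfl, by rw [map_zero]; rfl⟩
    add := fun x hx y hy => ⟨fun u => by
      rw [map_add]
      exact add_nonneg (hx.1 u) (hy.1 u), by rw [map_add, Pi.add_apply, hx.2, hy.2, add_zero]⟩
    smul := fun c hc x hx => ⟨fun u => by
      rw [map_smul]
      exact mul_nonneg hc (hx.1 u), by rw [map_smul, Pi.smul_apply, hx.2, smul_zero]⟩ }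
  closed := by
    have hcy : ∀ y, Continuous fun g : W => ev g y := fun y => by
      have := (ev_cont h).comp (continuous_id.prodMk (continuous_const (y := y)))
      exact this
    have h1 : Nf ev z = (⋂ x, {g | 0 ≤ ev g x}) ∩ {g | ev g z = 0} := by
      ext g
      simp [Nf, Cn]
    rw [h1]
    exact (isClosed_iInter fun x => isClosed_le continuous_const (hcy x)).inter
      (isClosed_eq (hcy z) continuous_const)
  pointed := fun x hx hx' => by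
    apply h.inj
    rw [map_zero]
    funext u
    have h1 := hx.1 u
    have h2 := hx'.1 u
    rw [map_neg, Pi.neg_apply] at h2
    show ev x u = 0
    linarith

/-- faces of the cone of `z` are faces of the cone -/
theorem face_iff {z : RP3} {Φ : Set W} : D1.Face (Nf ev z) Φ ↔ IsFace ev Φ ∧ Φ ⊆ Nf ev z := by
  constructor
  · intro h
    refine ⟨⟨fun g hg => (h.sub hg).1, h.cone.zero, h.cone.add, h.cone.smul, ?_⟩, h.sub⟩
    intro g hg k hk hgk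
    have h1 := (h.sub hgk).2
    rw [map_add, Pi.add_apply] at h1
    have h2 := hg z
    have h3 := hk z
    exact h.ext g ⟨hg, by linarith⟩ k ⟨hk, by linarith⟩ hgk
  · rintro ⟨h, hs⟩
    exact ⟨⟨h.zero, h.add, h.smul⟩, hs, fun g hg k hk hgk => h.ext g hg.1 k hk.1 hgk⟩

/-- the functions of type two which vanish at `z`, and zero -/
def Zt (ev : W →ₗ[ℝ] (RP3 → ℝ)) (z : RP3) : Set W := {g | g ∈ Nf ev z ∧ (g = 0 ∨ g ∈ T2set ev)}

theorem not_sub_iff {z : RP3} {Φ : Set W} (h : Φ ⊆ Nf ev z) :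
    ¬ Φ ⊆ Zt ev z ↔ ∃ g ∈ Φ, g ≠ 0 ∧ g ∉ T2set ev := by
  constructor
  · intro h1
    by_contra hcon
    push Not at hcon
    apply h1
    intro g hg
    refine ⟨h hg, ?_⟩
    by_cases hg0 : g = 0
    · exact Or.inl hg0
    · exact Or.inr (hcon g hg hg0)
  · rintro ⟨g, hg, hg0, hgT⟩ h1
    rcases (h1 hg).2 with h2 | h2
    · exact hg0 h2
    · exact hgT h2

theorem nthin_iff {z : RP3} {Φ : Set W} :
    NThin ev z Φ ↔ D1.Face (Nf ev z) Φ ∧ ¬ Φ ⊆ Zt ev z := by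
  constructor
  · rintro ⟨h1, h2, h3⟩
    exact ⟨face_iff.mpr ⟨h1, h2⟩, (not_sub_iff h2).mpr h3⟩
  · rintro ⟨h1, h2⟩
    have h3 := face_iff.mp h1
    exact ⟨h3.1, h3.2, (not_sub_iff h3.2).mp h2⟩

theorem sz_eq {lam : W →ₗ[ℝ] ℝ} {z : RP3} : Geo5.SZ (Zt ev z) lam = SF ev lam (Nf ev z) := by
  ext g
  constructor
  · rintro ⟨⟨h1, h2⟩, h3⟩
    refine ⟨h1, h2.resolve_left ?_, h3⟩
    rintro rfl
    rw [map_zero] at h3
    exact zero_ne_one h3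
  · rintro ⟨h1, h2, h3⟩
    exact ⟨⟨h1, Or.inr h2⟩, h3⟩

end cone

section main

variable {F : Type} [Field F] {ev : W →ₗ[ℝ] (RP3 → ℝ)} {lam : W →ₗ[ℝ] ℝ}
  {w : H (⊥ : Subgroup (W ≃ᵢ W)) ∅ 1 (E2 ev lam)}

/-- `w = 0` on `Q` -/
def wzr (w : H (⊥ : Subgroup (W ≃ᵢ W)) ∅ 1 (E2 ev lam)) (Q : Set W) : Prop :=
  ∃ hQ : Q ⊆ E2 ev lam, res hQ 1 w = 0

/-- the properties of `w` over a regular point -/
theorem wz_at (h : WF F ev lam w) {z : RP3} (hz : Reg ev z)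
    (h2 : sq (res (SF_sub lam (Nf ev z)) 1 w) ≠ 0) (hB : Blk2Stmt) :
    Geo5.WZ (Nf ev z) (Zt ev z) lam (wzr w) where
  cpc := nf_cpc h.sys z
  pos := fun g hg hg0 => h.nm g hg.1 hg0
  sub := fun g hg => hg.1
  zero := ⟨(nf_cpc h.sys z).cone.zero, Or.inl rfl⟩
  down := by
    rintro g ⟨hg, hg'⟩ k hk t ht hgk
    refine ⟨hk, ?_⟩
    by_cases hk0 : k = 0
    · exact Or.inl hk0
    · right
      have hle : ∀ x, t * ev k x ≤ ev g x := fun x => by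
        have h1 := hgk.1 x
        rw [map_sub, map_smul, Pi.sub_apply, Pi.smul_apply, smul_eq_mul] at h1
        linarith
      have hg0 : g ≠ 0 := by
        rintro rfl
        apply hk0
        apply h.sys.inj
        rw [map_zero]
        funext x
        have h1 := hle x
        rw [map_zero, Pi.zero_apply] at h1
        have h3 := hk.1 x
        show ev k x = 0
        nlinarith
      obtain ⟨-, -, -, hE⟩ := hg'.resolve_left hg0
      refine ⟨hk.1, hk0, ⟨z, hk.2⟩, hE.mono fun x hx => ?_⟩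
      have hx' : 0 < ev k x := hx
      have h1 := hle x
      show 0 < ev g x
      nlinarith [mul_pos ht hx']
  cpt := by
    rw [sz_eq, ← Zz_E2]
    exact h.toTF.E2_compact.inter_right (by
      have hcy : Continuous fun g : W => ev g z := by
        have := (ev_cont h.sys).comp (continuous_id.prodMk (continuous_const (y := z)))
        exact this
      exact isClosed_eq hcy continuous_const)
  mono := by
    rintro Q Q' hQ ⟨hE, h1⟩
    refine ⟨hQ.trans hE, ?_⟩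
    rw [← res_res hQ hE (hQ.trans hE), h1, map_zero]
  taut := by
    rintro Q hQ hc ⟨hE, h1⟩
    have hS : SF ev lam (Nf ev z) ⊆ E2 ev lam := SF_sub lam _
    obtain ⟨ρ, hρ, h3⟩ := okT1 W ⊥ ∅ Q (E2 ev lam) 1 hE w (OkD.empty _)
      ⟨hc, IvS.bot _, Fr.bot _⟩ ⟨h.toTF.E2_compact, IvS.bot _, Fr.bot _⟩ h1
    refine ⟨ρ, hρ, fun N hN hd => ?_⟩
    rw [sz_eq] at hN
    exact ⟨hN.trans hS, h3 N (hN.trans hS) hd⟩
  split := by
    rintro A B hA hB hAB ⟨hAE, hA0⟩ ⟨hBE, hB0⟩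
    rw [sz_eq] at hAB
    apply h2
    show cupH ∅ 2 (pw (res (SF_sub lam (Nf ev z)) 1 w) 1) (res (SF_sub lam (Nf ev z)) 1 w) = 0
    rw [pw_one]
    have hAS : A ⊆ SF ev lam (Nf ev z) := by
      rw [← hAB]
      exact Set.subset_union_left
    have hBS : B ⊆ SF ev lam (Nf ev z) := by
      rw [← hAB]
      exact Set.subset_union_right
    exact okK3 W ⊥ A B _ 1 1 hAS hBS ⟨hA, IvS.bot _, Fr.bot _⟩ ⟨hB, IvS.bot _, Fr.bot _⟩ hAB.symm
      _ _ (by rw [res_res hAS _ hAE, hA0]) (by rw [res_res hBS _ hBE, hB0])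
  h1 := by
    rintro Q hQ hc h1
    rw [sz_eq] at hQ
    exact ⟨hQ.trans (SF_sub lam _), h1 _⟩
  block := by
    rintro Φ hΦ hΦZ Q hQ hc hQΦ
    rw [sz_eq] at hQ
    have hF := face_iff.mp hΦ
    obtain ⟨e₀, he₀, h3⟩ := h.res_zero
    refine ⟨hQ.trans (SF_sub lam _), h3 Q _ hc e₀ he₀ le_rfl ?_⟩
    exact hB F ev h.sys z hz Φ hF.1 hF.2 ((not_sub_iff hF.2).mp hΦZ) Q hc
      (fun g hg => ⟨(hQ hg).1, (hQ hg).2.1⟩) hQΦ e₀ he₀

/-- the structure exists -/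
theorem exists_wz (hN : NmStmt) (hT : TFStmt) (hW : WFStmt) (h2 : W2Stmt) (hB : Blk2Stmt)
    (hs : CSys F ev) {z : RP3} (hz : Reg ev z) :
    ∃ (lam : W →ₗ[ℝ] ℝ) (w : H (⊥ : Subgroup (W ≃ᵢ W)) ∅ 1 (E2 ev lam)), WF F ev lam w ∧
      Geo5.WZ (Nf ev z) (Zt ev z) lam (wzr w) := by
  obtain ⟨lam, hlam⟩ := hN F ev hs
  obtain ⟨w, hw⟩ := hW F ev lam (hT F ev lam hs hlam)
  exact ⟨lam, w, hw, wz_at hw hz (h2 F ev lam w hw z hz) hB⟩

end main

/-! ## the exports -/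

theorem a4 (hN : NmStmt) (hT : TFStmt) (hW : WFStmt) (h2 : W2Stmt) (hB : Blk2Stmt) : A4Stmt := by
  intro F _ ev hs z hz Φ hΦ
  obtain ⟨lam, w, -, h⟩ := exists_wz hN hT hW h2 hB hs hz
  obtain ⟨h1, h3⟩ := nthin_iff.mp hΦ
  obtain ⟨G, hG, hG1, hG2, hG3⟩ := h.line _ Φ h1 h3 rfl
  exact ⟨G, hG, nthin_iff.mpr ⟨hG1, hG2⟩, hG3⟩

theorem a5 (hN : NmStmt) (hT : TFStmt) (hW : WFStmt) (h2 : W2Stmt) (hB : Blk2Stmt) : A5Stmt := by
  intro F _ ev hs z hz Φ Ψ hΦ hΨ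
  obtain ⟨lam, w, -, h⟩ := exists_wz hN hT hW h2 hB hs hz
  obtain ⟨h1, h3⟩ := nthin_iff.mp hΦ
  obtain ⟨h4, h5⟩ := nthin_iff.mp hΨ
  obtain ⟨x, hx, hx', hx0⟩ := h.meet h1 h4 h3 h5
  exact ⟨x, hx, hx', hx0⟩

theorem a8 (hN : NmStmt) (hT : TFStmt) (hW : WFStmt) (h2 : W2Stmt) (hB : Blk2Stmt) : A8Stmt := by
  intro F _ ev hs z hz Φ hΦ hd
  obtain ⟨lam, w, -, h⟩ := exists_wz hN hT hW h2 hB hs hz
  obtain ⟨h1, h3⟩ := nthin_iff.mp hΦ
  obtain ⟨G₁, G₂, hne, hs₁, hs₂, ⟨f1, f2, f3⟩, g1, g2, g3⟩ := h.two h1 h3 hd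
  exact ⟨G₁, G₂, hne, hs₁, hs₂, ⟨nthin_iff.mpr ⟨f1, f2⟩, f3⟩, nthin_iff.mpr ⟨g1, g2⟩, g3⟩

theorem a3 (hN : NmStmt) (hT : TFStmt) (hW : WFStmt) (h2 : W2Stmt) (hB : Blk2Stmt) : A3Stmt := by
  intro F _ ev hs z hz k hk e he
  obtain ⟨lam, w, hw, h⟩ := exists_wz hN hT hW h2 hB hs hz
  -- the extension of `e`
  set e' : W →ₗ[ℝ] ℝ :=
    (e : KK ev z →ₗ[ℝ] ℝ) ∘ₗ ((KK ev z).orthogonalProjectionOnto : W →ₗ[ℝ] KK ev z) with he'
  have hee : ∀ g : KK ev z, e' (g : W) = e g := fun g => by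
    show e ((KK ev z).orthogonalProjectionOnto (g : W)) = e g
    rw [Submodule.orthogonalProjectionOnto_mem_subspace_eq_self]
  have hee' : ∀ g (hg : g ∈ Nf ev z), e' g = e ⟨g, Submodule.subset_span hg⟩ := fun g hg =>
    hee ⟨g, Submodule.subset_span hg⟩
  have hnn : ∀ e₁ : KK ev z →L[ℝ] ℝ, e₁ ∈ C32.T4b.E0 (ev.comp (KK ev z).subtype) k →
      ∀ g : KK ev z, (g : W) ∈ Nf ev z → 0 ≤ e₁ g := by
    rintro e₁ ⟨y, hy, h1⟩ g hg
    rw [h1]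
    exact div_nonneg (hg.1 y) hy.le
  have hpos : ∀ l ∈ Nf ev z, 0 ≤ e' l := by
    intro l hl
    rw [hee' l hl]
    have hcl : IsClosed {e₁ : KK ev z →L[ℝ] ℝ | 0 ≤ e₁ ⟨l, Submodule.subset_span hl⟩} :=
      isClosed_le continuous_const (C32.T4b.continuous_eval _)
    exact closure_minimal (fun e₁ h1 => hnn e₁ h1 _ hl) hcl he
  set P : Set (W →ₗ[ℝ] ℝ) := {p | ∃ y, ∀ g, p g = ev g y} with hP
  have hPn : ∀ p ∈ P, ∀ l ∈ Nf ev z, 0 ≤ p l := by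
    rintro p ⟨y, hy⟩ l hl
    rw [hy]
    exact hl.1 y
  have hPs : ∀ p ∈ P, ∀ Q ⊆ Geo5.SZ (Zt ev z) lam, IsCompact Q → (∀ g ∈ Q, 0 < p g) →
      wzr w Q := by
    rintro p ⟨y, hy⟩ Q hQ hc hp
    rw [sz_eq] at hQ
    refine ⟨hQ.trans (SF_sub lam _), hw.sect _ hc y fun g hg => ?_⟩
    rw [← hy]
    exact hp g hg
  have h3 := h.a3 hPn hPs hpos ?_
  · rw [not_sub_iff (fun g hg => hg.1)] at h3
    obtain ⟨g, ⟨hg, hg'⟩, hg0, hgT⟩ := h3
    refine ⟨⟨g, Submodule.subset_span hg⟩, hg, ?_, fun h4 => hg0 (congrArg Subtype.val h4), hgT⟩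
    rw [← hee' g hg]
    exact hg'
  · intro ε hε
    obtain ⟨C, hC⟩ := h.cpt.isBounded.exists_norm_le
    have hC' : 0 < |C| + 1 := by positivity
    obtain ⟨e₁, h1, hd⟩ := (Metric.mem_closure_iff (α := KK ev z →L[ℝ] ℝ)
      (s := C32.T4b.E0 (ev.comp (KK ev z).subtype) k) (a := e)).mp he (ε / (|C| + 1))
      (div_pos hε hC')
    obtain ⟨y, hy, h4⟩ := h1
    set p : W →ₗ[ℝ] ℝ := (LinearMap.proj y).comp ev with hp
    refine ⟨p, ⟨y, fun g => rfl⟩, (ev (k : W) y)⁻¹, inv_nonneg.mpr hy.le, fun g hg => ?_⟩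
    have hgN : g ∈ Nf ev z := hg.1.1
    set g' : KK ev z := ⟨g, Submodule.subset_span hgN⟩ with hg'
    have h5 : (ev (k : W) y)⁻¹ * p g = e₁ g' := by
      rw [h4, div_eq_inv_mul]
      rfl
    rw [h5, hee' g hgN]
    have h6 : |e₁ g' - e g'| ≤ ‖e₁ - e‖ * ‖g'‖ := by
      have := (e₁ - e).le_opNorm g'
      rwa [sub_apply, Real.norm_eq_abs] at this
    have h7 : ‖e₁ - e‖ ≤ ε / (|C| + 1) := by
      have h70 : dist e₁ e = ‖e₁ - e‖ := dist_eq_norm e₁ e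
      rw [← h70, dist_comm]
      exact hd.le
    have h8 : ‖g'‖ ≤ |C| + 1 := by
      have h9 : ‖g‖ ≤ C := hC g hg
      have h10 : ‖g'‖ = ‖g‖ := rfl
      have := le_abs_self C
      rw [h10]
      linarith
    refine h6.trans ((mul_le_mul h7 h8 (norm_nonneg _) (div_nonneg hε.le hC'.le)).trans ?_)
    rw [div_mul_cancel₀ _ hC'.ne']

end C3

end TightRP
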