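import Pool.Agent.Lib.MP_7cdc3e_gt.C.T4.HypB
import Pool.Agent.Lib.MP_7cdc3e_gt.C.T4a.Bri
import Pool.Agent.Lib.MP_7cdc3e_gt.C.T4b.A11
import Pool.Agent.Lib.MP_7cdc3e_gt.C.T4b.A2
import Pool.Agent.Lib.MP_7cdc3e_gt.C.T4b.A7
import Pool.Agent.Lib.MP_7cdc3e_gt.C.T4b.A7T
import Pool.Agent.Lib.MP_7cdc3e_gt.C.T4b.B3
import Pool.Agent.Lib.MP_7cdc3e_gt.C.T4b.Bet
import Pool.Agent.Lib.MP_7cdc3e_gt.C.T4b.Cap
import Pool.Agent.Lib.MP_7cdc3e_gt.C.T4b.CapZ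
import Pool.Agent.Lib.MP_7cdc3e_gt.C.T4b.Cov
import Pool.Agent.Lib.MP_7cdc3e_gt.C.T4b.Crd
import Pool.Agent.Lib.MP_7cdc3e_gt.C.T4b.EvN
import Pool.Agent.Lib.MP_7cdc3e_gt.C.T4b.FilT
import Pool.Agent.Lib.MP_7cdc3e_gt.C.T4b.Fill
import Pool.Agent.Lib.MP_7cdc3e_gt.C.T4b.HfE
import Pool.Agent.Lib.MP_7cdc3e_gt.C.T4b.KSz
import Pool.Agent.Lib.MP_7cdc3e_gt.C.T4b.Lrx
import Pool.Agent.Lib.MP_7cdc3e_gt.C.T4b.NSph
import Pool.Agent.Lib.MP_7cdc3e_gt.C.T4b.NfF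
import Pool.Agent.Lib.MP_7cdc3e_gt.C.T4b.RI
import Pool.Agent.Lib.MP_7cdc3e_gt.C.T4b.Sup
import Pool.Agent.Lib.MP_7cdc3e_gt.C.T4c.T4c
import Pool.Agent.Lib.MP_7cdc3e_gt.C.T4c.Sec
import Pool.Agent.Lib.MP_7cdc3e_gt.C.T4c.SA
import Pool.Agent.Lib.MP_7cdc3e_gt.C.T4c.SB
import Pool.Agent.Lib.MP_7cdc3e_gt.C.T4c.Rng
import Pool.Agent.Lib.MP_7cdc3e_gt.C.T4c.Sep
import Pool.Agent.Lib.MP_7cdc3e_gt.C.T4c.Lea
import Pool.Agent.Lib.MP_7cdc3e_gt.C.T4c.Cls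
import Pool.Agent.Lib.MP_7cdc3e_gt.C.T4c.Cap
import Pool.Agent.Lib.MP_7cdc3e_gt.C.T4c.Pick
import Pool.Agent.Lib.MP_7cdc3e_gt.C.T4c.Hsp
import Pool.Agent.Lib.MP_7cdc3e_gt.T0.All
import Pool.Agent.Lib.AS.AllL

/-!
# MP_7cdc3e_gt, C32, T4: assembly of section T4
-/

set_option autoImplicit false

open scoped RealInnerProductSpace
open Module HoloConj Pool.Agent.Lib.SingHom

namespace C32

namespace T4b

theorem okRI : S_RI := tRI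
theorem okCrd : S_Crd := tCrd tRI
theorem okLrx : S_Lrx := tLrx tRI
theorem okKSz : S_KSz := tKSz TightRP.T0.oxPre
theorem okFilT : S_FilT := tFilT AS.okW1a AS.okW1b tNSph
theorem okHfE : S_HfE := tHfE TightRP.T0.oxOne TightRP.T0.oxPow
theorem okFill : S_Fill := tFill tRI tCap okCrd tBet okFilT okHfE TightRP.T0.oxGen
theorem okCov : S_Cov := tCov TightRP.T0.oxOne AS.R3.okRP
theorem okA2 : S_A2 := tA2 tEvN okCov
theorem okB3 : S_B3 := tB3 TightRP.T0.oxGen TightRP.T0.oxTop TightRP.T0.oxEv TightRP.T0.oxPow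
theorem okA7T : S_A7T := tA7T AS.okW1b AS.okW3a okB3 AS.R3.okRP
theorem okA7 : S_A7 := tA7 okA7T

end T4b

end C32

namespace TightRP

namespace T4c

theorem okSB : S_SB := tSB tSep tLea tCls
theorem okRng : S_Rng := tRng tCap tPick tHsp
theorem okSec : S_Sec := tSec tSA okSB okRng
theorem okT4c : S_T4c := tT4c okSec

end T4c

namespace C3

variable {ev : W →ₗ[ℝ] (RP3 → ℝ)} {z : RP3} {F : Type} [Field F]

private theorem lpc_of_euc {M : Type} [TopologicalSpace M] (h : LocEuc3 M) :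
    LocallyPathConnectedSpace M := by
  refine ⟨fun x => ?_⟩
  rw [Filter.hasBasis_self]
  intro t ht
  obtain ⟨U, hU, hxU, ⟨e⟩⟩ := h x
  have hlp : LocallyPathConnectedSpace U := e.isOpenEmbedding.locallyPathConnectedSpace
  have hj : Topology.IsOpenEmbedding (Subtype.val : U → M) := hU.isOpenEmbedding_subtypeVal
  have h1 : (Subtype.val : U → M) ⁻¹' t ∈ nhds (⟨x, hxU⟩ : U) :=
    hj.continuous.continuousAt.preimage_mem_nhds ht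
  obtain ⟨s, ⟨hs1, hs2⟩, hs3⟩ := (path_connected_basis (⟨x, hxU⟩ : U)).mem_iff.1 h1
  refine ⟨Subtype.val '' s, ?_, hs2.image continuous_subtype_val, ?_⟩
  · exact hj.isOpenMap.image_mem_nhds hs1
  · rintro _ ⟨y, hy, rfl⟩
    exact hs3 hy

/-- every regular point has the data `Pt` -/
theorem exists_pt (hs : CSys F ev) (hz : Reg ev z) : ∃ h : KK ev z, Pt F ev z h := by
  have hN : IsFace ev (Nf ev z) := C32.T4b.tNfF ev z
  obtain ⟨⟨h, hh⟩, h2⟩ := C32.T4b.okLrx ev (Nf ev z) hN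
  have h0 : ∃ g ∈ Nf ev z, g ≠ 0 := by
    by_contra hc
    push Not at hc
    have h3 : Submodule.span ℝ (Nf ev z) = ⊥ := by
      rw [Submodule.span_eq_bot]
      exact hc
    have h4 : dm (Nf ev z) = 0 := by
      rw [dm, h3, finrank_bot]
    rw [hz.2] at h4
    omega
  have hmem : h ∈ Submodule.span ℝ (Nf ev z) := Submodule.subset_span hh.1
  obtain ⟨h3, h4⟩ := C32.T4b.okKSz F ev hs (Nf ev z) hN h0 ⟨h, hmem⟩ hh
  exact ⟨⟨h, hmem⟩, hs, hz, hh, hN, h3, h4, (h2 h hh).2 hz.1⟩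

theorem Pt.hyp {h : KK ev z} (P : Pt F ev z h) (hLN : LNStmt) (h3 : A3Stmt) (h4 : A4Stmt)
    (h5 : A5Stmt) (h8 : A8Stmt) :
    T4c.Hyp F (LK ev z) (EK ev z h) (ZT ev z) (vK ev z) where
  dim := P.reg.2
  cone := P.cone
  int := ⟨h, P.int⟩
  vc := vK_cont P.sys.cont
  mem := P.mem
  vE := P.vE
  Esub := P.Esub
  Esm := Pt.Esm
  Zsub := P.Zsub
  a1 := P.a1
  a2 := P.a2 C32.T4b.okA2
  a3 := P.a3 h3
  a4 := P.a4 h4
  a5 := P.a5 h5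
  a7 := P.a7 C32.T4b.okA7
  a8 := P.a8 h8
  a11 := P.a11 C32.T4b.tA11
  fill := P.fill C32.T4b.okFill hLN
  conn := by
    intro k
    have hset : {y : RP3 | 0 < ⟪vK ev z y, k⟫} = {y | 0 < ev (k : W) y} := by
      ext y
      show 0 < ⟪vK ev z y, k⟫ ↔ 0 < ev (k : W) y
      rw [inner_vK]
    rw [hset]
    exact T0.oxPre F ev P.sys k
  hinj := by
    intro k
    have hset : {y : RP3 | 0 < ⟪vK ev z y, k⟫} = {y | 0 < ev (k : W) y} := by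
      ext y
      show 0 < ⟪vK ev z y, k⟫ ↔ 0 < ev (k : W) y
      rw [inner_vK]
    rw [hset]
    exact P.sys.tight k 1 le_rfl

/-- section T4 from the exports of T4a -/
theorem t4 (hLN : LNStmt) (h3 : A3Stmt) (h4 : A4Stmt) (h5 : A5Stmt) (h8 : A8Stmt) : T4Stmt := by
  intro F _ ev hs z hz
  obtain ⟨h, P⟩ := exists_pt hs hz
  rw [ZK_eq]
  exact T4c.okT4c F (KK ev z) RP3 (LK ev z) (EK ev z h) (ZT ev z) (vK ev z) rTop.1
    (lpc_of_euc rTop.2.1) (P.hyp hLN h3 h4 h5 h8)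

/-- (a7) -/
theorem posPt : PosPtStmt := fun F _ ev hs _ _ Φ hΦ _ hT _ => C32.T4b.okA7 F ev hs Φ hΦ hT

end C3

end TightRP
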