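import Pool.Agent.Lib.MP_7cdc3e_gt.C.T4.Blk2
import Pool.Agent.Lib.MP_7cdc3e_gt.C.T4.Wz
import Pool.Agent.Lib.MP_7cdc3e_gt.C.T4.HypC

/-!
# MP_7cdc3e_gt, C32: section T4 from the exports of T1 and T2
-/

set_option autoImplicit false

namespace TightRP

namespace C3

theorem a3_at (hN : NmStmt) (hT : TFStmt) (hW : WFStmt) (h2 : W2Stmt) (hS : SepStmt) : A3Stmt :=
  a3 hN hT hW h2 (blk2 (blk1 (lemN hS)))

/-- T4 from the exports of T1 and T2 -/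
theorem t4_at (hN : NmStmt) (hT : TFStmt) (hW : WFStmt) (h2 : W2Stmt) (hS : SepStmt) : T4Stmt :=
  t4 (lemN hS) (a3_at hN hT hW h2 hS) (a4 hN hT hW h2 (blk2 (blk1 (lemN hS))))
    (a5 hN hT hW h2 (blk2 (blk1 (lemN hS)))) (a8 hN hT hW h2 (blk2 (blk1 (lemN hS))))

end C3

end TightRP
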