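import Pool.Agent.Lib.MP_7cdc3e_gt.C.T4.Wz
import Pool.Agent.Lib.MP_7cdc3e_gt.C.T4a.Bri
import Pool.Agent.Lib.MP_7cdc3e_gt.C.T4b.HfE
import Pool.Agent.Lib.AS.Tot

/-!
# MP_7cdc3e_gt, C32, T4: the second blocking lemma

If a face `Φ` of the cone of a regular point contains a function which is not of rank one, then the class `w`
vanishes on all compact sets of functions of rank one which are disjoint from `Φ`.
-/

set_option autoImplicit false

open HoloConj Pool.Agent.Lib.SingHom Module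

namespace TightRP

namespace C3

section

variable {ev : W →ₗ[ℝ] (RP3 → ℝ)}

/-- an order unit, uniform version -/
theorem exists_unit_norm (ev : W →ₗ[ℝ] (RP3 → ℝ)) (z : RP3) : ∃ h ∈ Nf ev z, ∃ C > 0,
    ∀ k ∈ Submodule.span ℝ (Nf ev z), ∀ x, |ev k x| ≤ C * ‖k‖ * ev h x := by
  classical
  let K : Submodule ℝ W := Submodule.span ℝ (Nf ev z)
  let b := Module.finBasis ℝ K
  have h1 : ∀ i, ∃ h ∈ Nf ev z, ∀ x, |ev (b i : W) x| ≤ ev h x := fun i => bound_span (b i).2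
  choose u hu hb using h1
  let L : ∀ i, K →L[ℝ] ℝ := fun i => LinearMap.toContinuousLinearMap (b.coord i)
  have hL : ∀ i (k : K), |b.repr k i| ≤ ‖L i‖ * ‖k‖ := fun i k => by
    have h2 := (L i).le_opNorm k
    rwa [Real.norm_eq_abs] at h2
  refine ⟨∑ i, u i, Nf_sum _ _ fun i _ => hu i, ∑ i, ‖L i‖ + 1, by
    have := Finset.sum_nonneg fun i (_ : i ∈ Finset.univ) => norm_nonneg (L i)
    linarith, fun k hk x => ?_⟩
  have h2 : k = ∑ i, b.repr ⟨k, hk⟩ i • (b i : W) := by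
    have h3 := congrArg (fun y : K => (y : W)) (b.sum_repr ⟨k, hk⟩)
    simp only [Submodule.coe_sum, Submodule.coe_smul] at h3
    exact h3.symm
  have hux : ∀ i, 0 ≤ ev (u i) x := fun i => (hu i).1 x
  have hsum : 0 ≤ ∑ i, ev (u i) x := Finset.sum_nonneg fun i _ => hux i
  have h4 : |ev k x| ≤ ∑ i, (‖L i‖ * ‖k‖) * ev (u i) x := by
    conv_lhs => rw [h2]
    rw [ev_sum]
    refine (Finset.abs_sum_le_sum_abs _ _).trans (Finset.sum_le_sum fun i _ => ?_)
    rw [ev_smul, abs_mul]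
    exact mul_le_mul (hL i ⟨k, hk⟩) (hb i x) (abs_nonneg _) (by positivity)
  have h5 : ∑ i, (‖L i‖ * ‖k‖) * ev (u i) x ≤ (∑ i, ‖L i‖ * ‖k‖) * ∑ i, ev (u i) x := by
    rw [Finset.sum_mul]
    refine Finset.sum_le_sum fun i _ => mul_le_mul_of_nonneg_left ?_ (by positivity)
    exact Finset.single_le_sum (f := fun i => ev (u i) x) (fun j _ => hux j) (Finset.mem_univ i)
  rw [ev_sum]
  calc |ev k x| ≤ _ := h4
    _ ≤ _ := h5
    _ ≤ (∑ i, ‖L i‖ + 1) * ‖k‖ * ∑ i, ev (u i) x := by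
        refine mul_le_mul_of_nonneg_right ?_ hsum
        rw [← Finset.sum_mul]
        exact mul_le_mul_of_nonneg_right (by linarith) (norm_nonneg _)

/-- half-spaces inside even open sets are acyclic -/
theorem acy_ge {F : Type} [Field F] (h : CSys F ev) (g : W) (d : ℝ) (hne : ∃ y, d ≤ ev g y)
    (hE : Even {y | d ≤ ev g y}) : AS.Acy (AS.Pm E4) (up {y | d ≤ ev g y}) := by
  obtain ⟨u, hu⟩ := h.one
  refine C32.T4b.tHfE T0.oxOne T0.oxPow _ (isClosed_le continuous_const (h.cont g)) hne ?_ hE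
  have h1 : {y | d ≤ ev g y} = {y | 0 ≤ ev (g - d • u) y} := by
    ext y
    show d ≤ ev g y ↔ 0 ≤ ev (g - d • u) y
    rw [ev_sub, ev_smul, hu, mul_one, sub_nonneg]
  rw [h1]
  exact T0.oxGen F ev h _

/-- the functions `l - k`, `l ∈ Q`, are uniformly positive somewhere -/
theorem exists_level (hc : ∀ g, Continuous (ev g)) {Q : Set W} (hQ : IsCompact Q) (k : W)
    (h : ∀ l ∈ Q, ∃ y, 0 < ev (l - k) y) : ∃ d > 0, ∀ l ∈ Q, ∃ y, d ≤ ev (l - k) y := by
  refine hQ.induction_on (p := fun K => ∃ d > 0, ∀ l ∈ K, ∃ y, d ≤ ev (l - k) y)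
    ⟨1, one_pos, fun t ht => absurd ht (Set.notMem_empty t)⟩ ?_ ?_ ?_
  · rintro s t hst ⟨d, hd, h1⟩
    exact ⟨d, hd, fun l hl => h1 l (hst hl)⟩
  · rintro s t ⟨d, hd, h1⟩ ⟨d', hd', h2⟩
    refine ⟨min d d', lt_min hd hd', fun l hl => ?_⟩
    rcases hl with hl | hl
    · obtain ⟨y, hy⟩ := h1 l hl
      exact ⟨y, (min_le_left _ _).trans hy⟩
    · obtain ⟨y, hy⟩ := h2 l hl
      exact ⟨y, (min_le_right _ _).trans hy⟩
  · intro l hl
    obtain ⟨y, hy⟩ := h l hl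
    obtain ⟨C, hC, hCb⟩ := ev_bound ev hc
    have h1 : Continuous fun l : W => ev (l - k) y := by
      have h2 : Continuous fun l : W => ev l y := by
        let φ : W →ₗ[ℝ] ℝ := (LinearMap.proj y : (RP3 → ℝ) →ₗ[ℝ] ℝ) ∘ₗ ev
        exact (LinearMap.continuous_of_finiteDimensional φ)
      exact h2.comp (continuous_id.sub continuous_const)
    refine ⟨{l' | ev (l - k) y / 2 < ev (l' - k) y}, ?_, ev (l - k) y / 2, half_pos hy,
      fun l' hl' => ⟨y, le_of_lt hl'⟩⟩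
    exact mem_nhdsWithin_of_mem_nhds ((isOpen_lt continuous_const h1).mem_nhds (half_lt_self hy))

end

theorem pm2_eq : Pm2 W = AS.LN.PX W := rfl

/-- **the second blocking lemma** -/
theorem blk2 (hB : Blk1Stmt) : Blk2Stmt := by
  intro F _ ev h z hz Φ hΦ hΦz hf Q hQ hQ1 hQΦ e he
  obtain ⟨f, hfΦ, hf0, hf2⟩ := hf
  have hfz : f ∈ Nf ev z := hΦz hfΦ
  obtain ⟨H, hH, C, hC, hunit⟩ := exists_unit_norm ev z
  obtain ⟨s₀, hs₀⟩ := hB F ev h z hz f hfz hf0 hf2 H (Submodule.subset_span hH)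
  -- constants
  obtain ⟨R, hR⟩ := hQ.isBounded.exists_norm_le
  let c : ℝ := C * max R 1
  have hc : 0 < c := mul_pos hC (lt_of_lt_of_le one_pos (le_max_right _ _))
  have hlc : ∀ l ∈ Q, ∀ y, ev l y ≤ c * ev H y := by
    intro l hl y
    have h1 := hunit l (Submodule.subset_span (hQ1 l hl).1) y
    have h2 : ‖l‖ ≤ max R 1 := (hR l hl).trans (le_max_left _ _)
    calc ev l y ≤ |ev l y| := le_abs_self _
      _ ≤ C * ‖l‖ * ev H y := h1
      _ ≤ c * ev H y := by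
        refine mul_le_mul_of_nonneg_right ?_ (hH.1 y)
        exact mul_le_mul_of_nonneg_left h2 hC.le
  let s₁ : ℝ := max s₀ 1
  have hs₁ : 0 < s₁ := lt_of_lt_of_le one_pos (le_max_right _ _)
  let s : ℝ := c * s₁
  have hs : 0 < s := mul_pos hc hs₁
  -- positivity somewhere
  have hpos : ∀ l ∈ Q, ∃ y, 0 < ev (l - s • f) y := by
    intro l hl
    by_contra hno
    have h1 : s • f - l ∈ Cn ev := by
      intro y
      by_contra h2
      refine hno ⟨y, ?_⟩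
      rw [ev_sub] at h2 ⊢
      linarith
    have h2 : l + (s • f - l) ∈ Φ := by
      have h3 : l + (s • f - l) = s • f := by abel
      rw [h3]
      exact hΦ.smul s hs.le f hfΦ
    have h3 : l ∈ Φ := hΦ.ext l (hQ1 l hl).1.1 _ h1 h2
    have h4 : l ∈ Q ∩ Φ := ⟨hl, h3⟩
    rw [hQΦ] at h4
    exact h4
  obtain ⟨d₀, hd₀, hlev⟩ := exists_level h.cont hQ (s • f) hpos
  let d : ℝ := min d₀ e
  have hd : 0 < d := lt_min hd₀ he
  refine W0.mono (Q := Q) (e := d) ?_ subset_rfl (min_le_right _ _)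
  have hlev' : ∀ l ∈ Q, ∃ y, d ≤ ev (l - s • f) y := fun l hl => by
    obtain ⟨y, hy⟩ := hlev l hl
    exact ⟨y, (min_le_left _ _).trans hy⟩
  have hle : ∀ l y, ev (l - s • f) y ≤ ev l y := by
    intro l y
    rw [ev_sub, ev_smul]
    have := mul_nonneg hs.le (hfz.1 y)
    linarith
  -- the total space
  let T : Set (W × E4) := {p | p.1 ∈ Q ∧ p.2 ∈ Sp ∧ d ≤ ev (p.1 - s • f) (pj p.2)}
  have hTV : T ⊆ VE ev Q d := fun p hp => ⟨hp.1, hp.2.1, hp.2.2.trans (hle _ _)⟩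
  have hTc : IsCompact T := by
    have h1 : ContinuousOn (fun p : W × E4 => ev (p.1 - s • f) (pj p.2)) {p | p.2 ∈ Sp} := by
      have h2 : (fun p : W × E4 => ev (p.1 - s • f) (pj p.2)) =
          fun p => fe ev p - ev (s • f) (pj p.2) := by
        funext p
        rw [ev_sub]
        rfl
      rw [h2]
      exact (fe_cont ev h.cont).sub ((h.cont _).comp_continuousOn
        (pj_cont.comp continuous_snd.continuousOn fun p hp => hp))
    have h2 : T = (Q ×ˢ Sp) ∩ (fun p : W × E4 => ev (p.1 - s • f) (pj p.2)) ⁻¹' Set.Ici d := by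
      ext p
      exact ⟨fun h => ⟨⟨h.1, h.2.1⟩, h.2.2⟩, fun h => ⟨h.1.1, h.1.2, h.2⟩⟩
    have h3 : IsCompact (Q ×ˢ Sp) := hQ.prod (isCompact_sphere _ _)
    rw [h2]
    exact h3.of_isClosed_subset ((h1.mono fun p hp => hp.2).preimage_isClosed_of_isClosed
      h3.isClosed isClosed_Ici) Set.inter_subset_left
  have hTneg : ∀ q ∈ T, (q.1, -q.2) ∈ T := fun q hq =>
    ⟨hq.1, neg_mem_Sp hq.2.1, by
      show d ≤ ev (q.1 - s • f) (pj (-q.2))
      rw [pj_neg hq.2.1]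
      exact hq.2.2⟩
  have hCe : Even {y | d ≤ ev (c • H - s • f) y} := by
    refine (hs₀ s₁ (le_max_left _ _)).mono fun y hy => ?_
    have h1 : d ≤ ev (c • H - s • f) y := hy
    rw [ev_sub, ev_smul, ev_smul] at h1
    show 0 < ev (H - s₁ • f) y
    rw [ev_sub, ev_smul]
    have h2 : c * (ev H y - s₁ * ev f y) = c * ev H y - s * ev f y := by
      show _ = c * ev H y - c * s₁ * ev f y
      ring
    have h3 : 0 < c * (ev H y - s₁ * ev f y) := by
      rw [h2]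
      linarith
    exact (mul_pos_iff_of_pos_left hc).mp h3
  have hCcl : IsClosed {y | d ≤ ev (c • H - s • f) y} :=
    isClosed_le continuous_const (h.cont _)
  have hTX : ∀ q ∈ T, q.2 ∈ up {y | d ≤ ev (c • H - s • f) y} := by
    intro q hq
    refine ⟨hq.2.1, ?_⟩
    have h1 : d ≤ ev (q.1 - s • f) (pj q.2) := hq.2.2
    show d ≤ ev (c • H - s • f) (pj q.2)
    rw [ev_sub, ev_smul] at h1 ⊢
    rw [ev_smul]
    have := hlc q.1 hq.1 (pj q.2)
    linarith
  have tT : AS.Tot T Q (up {y | d ≤ ev (c • H - s • f) y}) :=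
    ⟨hTc, hTneg, fun q hq => hq.1, hTX, hQ, T0.cs_up hCcl⟩
  have tV : AS.Tot (VE ev Q d) Q Sp :=
    ⟨VE_compact h.cont hQ d, fun q hq => (VE_in2 ev Q d).neg q hq, fun q hq => hq.1,
      fun q hq => hq.2.1, hQ, AS.R3.cs_S AS.R3.gp_Pm⟩
  have aT : AS.Adm (Pm2 W) ∅ T (⊥ : Subgroup (W ≃ᵢ W)) ∅ Q Prod.fst :=
    adm_fst ∅ fun p hp => hp.1
  have aV : AS.Adm (Pm2 W) ∅ (VE ev Q d) (⊥ : Subgroup (W ≃ᵢ W)) ∅ Q Prod.fst :=
    adm_fst ∅ fun p hp => hp.1
  have bT : Function.Bijective (AS.pull Prod.fst aT 1) := by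
    refine tT.vb1 AS.okW1a (fun l hl => ?_) aT 1
    have h1 : {x | (l, x) ∈ T} = up {y | d ≤ ev (l - s • f) y} := by
      ext x
      exact ⟨fun hx => hx.2, fun hx => ⟨hl, hx⟩⟩
    rw [h1]
    refine acy_ge h _ d (hlev' l hl) ((hQ1 l hl).2.2.2.2.mono fun y hy => ?_)
    exact lt_of_lt_of_le hd (le_trans hy (hle l y))
  have bV : Function.Bijective (AS.pull Prod.fst aV 1) := by
    refine tV.vb1 AS.okW1a (fun l hl => ?_) aV 1
    have h1 : {x | (l, x) ∈ VE ev Q d} = up {y | d ≤ ev l y} := by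
      ext x
      exact ⟨fun hx => hx.2, fun hx => ⟨hl, hx⟩⟩
    rw [h1]
    obtain ⟨y₀, hy₀⟩ := hlev' l hl
    refine acy_ge h _ d ⟨y₀, hy₀.trans (hle l y₀)⟩ ((hQ1 l hl).2.2.2.2.mono fun y hy => ?_)
    exact lt_of_lt_of_le hd hy
  -- the class vanishes on `T`
  have h0 : av T (fun p hp => hp.2.1) = 0 :=
    av_zero (up_sub _) hTX ((T0.oxOne _ hCcl).mpr hCe) _
  obtain ⟨y, hy⟩ := bV.2 (av (VE ev Q d) (fun p hp => (VE_in2 ev Q d).sub p hp))
  have h1 := res_av (fun p hp => (VE_in2 ev Q d).sub p hp) (fun p hp => hp.2.1) hTV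
  rw [h0, ← hy] at h1
  have h2 : AS.pull Prod.fst aT 1 y = 0 := by
    rw [← h1, AS.res_pull aV aT hTV (Set.Subset.refl Q), AS.res_self]
  have h3 : y = 0 := bT.1 (by rw [h2, map_zero])
  unfold W0
  rw [← hy, h3, map_zero]

end C3

end TightRP
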