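import Pool.Agent.Lib.MP_7cdc3e_gt.C.T4.Spec
import Pool.Agent.Lib.MP_7cdc3e_gt.C.Rng

/-!
# MP_7cdc3e_gt, C32, T4: the cone of a regular point in its span, evaluations as vectors
-/

set_option autoImplicit false

open scoped RealInnerProductSpace
open Module HoloConj Pool.Agent.Lib.SingHom

namespace TightRP

namespace C3

section vec

variable (ev : W →ₗ[ℝ] (RP3 → ℝ)) (z : RP3)

/-- the functions in the span of the cone of `z` -/
abbrev eK : KK ev z →ₗ[ℝ] (RP3 → ℝ) := ev.comp (KK ev z).subtype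

/-- evaluation at `y` as a vector of `KK ev z` -/
noncomputable def vK (y : RP3) : KK ev z :=
  (InnerProductSpace.toDual ℝ (KK ev z)).symm
    (LinearMap.toContinuousLinearMap ((LinearMap.proj y).comp (eK ev z)))

variable {ev z}

theorem inner_vK (y : RP3) (k : KK ev z) : ⟪vK ev z y, k⟫ = ev (k : W) y := by
  rw [vK, InnerProductSpace.toDual_symm_apply]
  rfl

theorem vK_cont (h : ∀ g, Continuous (ev g)) : Continuous (vK ev z) := by
  have h1 : ∀ y, vK ev z y = ∑ i, (ev ((stdOrthonormalBasis ℝ (KK ev z) i : KK ev z) : W) y) •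
      stdOrthonormalBasis ℝ (KK ev z) i := by
    intro y
    conv_lhs => rw [← (stdOrthonormalBasis ℝ (KK ev z)).sum_repr' (vK ev z y)]
    refine Finset.sum_congr rfl fun i _ => ?_
    rw [real_inner_comm, inner_vK]
  have h2 : vK ev z = fun y => ∑ i, (ev ((stdOrthonormalBasis ℝ (KK ev z) i : KK ev z) : W) y) •
      stdOrthonormalBasis ℝ (KK ev z) i := funext h1
  rw [h2]
  exact continuous_finset_sum _ fun i _ => (h _).smul continuous_const

end vec

section faces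

variable {ev : W →ₗ[ℝ] (RP3 → ℝ)} {z : RP3}

/-- the elements of rank one in the span of the cone of `z` -/
def ZT (ev : W →ₗ[ℝ] (RP3 → ℝ)) (z : RP3) : Set (KK ev z) := {k | (k : W) ∈ T2set ev}

theorem ZK_eq : ZK ev z = insert 0 (ZT ev z) := by
  ext k
  constructor
  · intro h
    by_cases h0 : k = 0
    · exact Or.inl h0
    · exact Or.inr (h h0)
  · rintro (h | h) h0
    · exact absurd h h0
    · exact h

/-- a set of elements of `KK ev z` as a set in `W` -/
def im (G : Set (KK ev z)) : Set W := (fun k : KK ev z => (k : W)) '' G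

/-- a subset of `W` as a set in `KK ev z` -/
def pre (ev : W →ₗ[ℝ] (RP3 → ℝ)) (z : RP3) (Φ : Set W) : Set (KK ev z) := {k | (k : W) ∈ Φ}

theorem pre_im (G : Set (KK ev z)) : pre ev z (im G) = G := by
  ext k
  constructor
  · rintro ⟨g, hg, h⟩
    rwa [← Subtype.ext h]
  · intro h
    exact ⟨k, h, rfl⟩

theorem im_pre {Φ : Set W} (h : Φ ⊆ Nf ev z) : im (pre ev z Φ) = Φ := by
  ext g
  constructor
  · rintro ⟨k, hk, rfl⟩
    exact hk
  · intro hg
    exact ⟨⟨g, Submodule.subset_span (h hg)⟩, hg, rfl⟩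

theorem im_mono {G H : Set (KK ev z)} (h : G ⊆ H) : im G ⊆ im H := Set.image_mono h

theorem dm_im (G : Set (KK ev z)) : dm (im G) = T4c.dm G := by
  have h1 : Submodule.span ℝ (im G) = (Submodule.span ℝ G).map (KK ev z).subtype := by
    rw [Submodule.map_span]
    rfl
  rw [dm, h1, T4c.dm]
  exact (Submodule.equivMapOfInjective (KK ev z).subtype
    (Submodule.injective_subtype _) (Submodule.span ℝ G)).symm.finrank_eq

theorem im_face (hN : IsFace ev (Nf ev z)) {G : Set (KK ev z)} (h : T4c.Fc (LK ev z) G) :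
    IsFace ev (im G) := by
  refine ⟨?_, ⟨0, h.zero, rfl⟩, ?_, ?_, ?_⟩
  · rintro _ ⟨k, hk, rfl⟩
    exact hN.sub (h.sub hk)
  · rintro _ ⟨k, hk, rfl⟩ _ ⟨l, hl, rfl⟩
    exact ⟨k + l, h.add k hk l hl, rfl⟩
  · rintro t ht _ ⟨k, hk, rfl⟩
    exact ⟨t • k, h.smul k hk t ht, rfl⟩
  · rintro g hg g' hg' ⟨k, hk, hkg⟩
    have h1 : g + g' ∈ Nf ev z := by
      rw [← hkg]
      exact h.sub hk
    have h2 : g ∈ Nf ev z := hN.ext g hg g' hg' h1
    have h3 : g' ∈ Nf ev z := hN.ext g' hg' g hg (by rwa [add_comm])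
    refine ⟨⟨g, Submodule.subset_span h2⟩, ?_, rfl⟩
    refine h.ext _ h2 ⟨g', Submodule.subset_span h3⟩ h3 ?_
    have h4 : (⟨g, Submodule.subset_span h2⟩ + ⟨g', Submodule.subset_span h3⟩ : KK ev z) = k :=
      Subtype.ext hkg.symm
    rw [h4]
    exact hk

theorem im_sub {G : Set (KK ev z)} (h : T4c.Fc (LK ev z) G) : im G ⊆ Nf ev z := by
  rintro _ ⟨k, hk, rfl⟩
  exact h.sub hk

theorem pre_face {Φ : Set W} (h : IsFace ev Φ) (hs : Φ ⊆ Nf ev z) :
    T4c.Fc (LK ev z) (pre ev z Φ) :=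
  ⟨fun _ hk => hs hk, h.zero, fun k hk l hl => h.add k hk l hl,
    fun k hk t ht => h.smul t ht k hk,
    fun k hk l hl hkl => h.ext k hk.1 l hl.1 hkl⟩

theorem nthin_im (hN : IsFace ev (Nf ev z)) {G : Set (KK ev z)} (h : T4c.Fc (LK ev z) G)
    (hT : ¬ T4c.Thin (ZT ev z) G) : NThin ev z (im G) := by
  refine ⟨im_face hN h, im_sub h, ?_⟩
  by_contra hc
  push Not at hc
  exact hT fun k hk h0 => hc k ⟨k, hk, rfl⟩ fun h1 => h0 (Subtype.ext h1)

theorem nthin_pre {Φ : Set W} (h : NThin ev z Φ) :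
    T4c.Fc (LK ev z) (pre ev z Φ) ∧ ¬ T4c.Thin (ZT ev z) (pre ev z Φ) := by
  refine ⟨pre_face h.face h.sub, fun hc => ?_⟩
  obtain ⟨g, hg, h0, h1⟩ := h.nt
  exact h1 (hc ⟨g, Submodule.subset_span (h.sub hg)⟩ hg fun h2 => h0 (congrArg Subtype.val h2))

theorem dm_pre {Φ : Set W} (h : Φ ⊆ Nf ev z) : T4c.dm (pre ev z Φ) = dm Φ := by
  rw [← dm_im, im_pre h]

end faces

end C3

end TightRP
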