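import Pool.Agent.Lib.MP_7cdc3e_gt.C.D1.Face
import Pool.Agent.Lib.MP_7cdc3e_gt.C.D1.Img
import Pool.Agent.Lib.AS.Bd
import Pool.Agent.Lib.AS.AllM

/-!
# MP_7cdc3e_gt, T4 part 5, abstract form: lines, (a3), (a4), (a5)

`L` is a closed pointed cone, `Z ⊆ L` the set of the functions of rank at most one (with `0`), `SZ Z lam` the
section of `Z` by the hyperplane `lam = 1`, and `wz Q` means `w = 0` on `Q`.  The structure `WZ` lists the
properties which are used.
-/

set_option autoImplicit false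
set_option linter.unusedSectionVars false

open Module AS

namespace TightRP

namespace Geo5

open D1

section basic

variable {E : Type} [NormedAddCommGroup E] [InnerProductSpace ℝ E] [FiniteDimensional ℝ E]

/-- the section -/
def SZ (Z : Set E) (lam : E →ₗ[ℝ] ℝ) : Set E := {g | g ∈ Z ∧ lam g = 1}

/-- the properties of `Z` and of the class `w` -/
structure WZ (L Z : Set E) (lam : E →ₗ[ℝ] ℝ) (wz : Set E → Prop) : Prop where
  cpc : CPC L
  pos : PosOn L lam
  sub : Z ⊆ L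
  zero : (0 : E) ∈ Z
  down : ∀ g ∈ Z, ∀ h ∈ L, ∀ t : ℝ, 0 < t → g - t • h ∈ L → h ∈ Z
  cpt : IsCompact (SZ Z lam)
  mono : ∀ Q Q' : Set E, Q' ⊆ Q → wz Q → wz Q'
  taut : ∀ Q ⊆ SZ Z lam, IsCompact Q → wz Q → ∃ ρ > 0, ∀ N ⊆ SZ Z lam,
    (∀ y ∈ N, ∃ b ∈ Q, dist y b < ρ) → wz N
  split : ∀ A B : Set E, IsCompact A → IsCompact B → A ∪ B = SZ Z lam → wz A → wz B → False
  h1 : ∀ Q ⊆ SZ Z lam, IsCompact Q → (∀ x : H (⊥ : Subgroup (E ≃ᵢ E)) ∅ 1 Q, x = 0) → wz Q
  block : ∀ F, Face L F → ¬ F ⊆ Z → ∀ Q ⊆ SZ Z lam, IsCompact Q → Q ∩ F = ∅ → wz Q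

/-- algebraic relative interior of a cone -/
def Ri (F : Set E) (q : E) : Prop := q ∈ F ∧ ∀ h ∈ F, ∃ t : ℝ, 0 < t ∧ q - t • h ∈ F

/-- the smallest face which contains `g` -/
def Fg (L : Set E) (g : E) : Set E := {h | h ∈ L ∧ ∃ t : ℝ, 0 < t ∧ g - t • h ∈ L}

theorem Ri.le {F : Set E} (hF : IsCone F) {q : E} (hq : q ∈ F) {h : E} {t s : ℝ} (ht : 0 < t)
    (h1 : q - t • h ∈ F) (hs : 0 ≤ s) (hst : s ≤ t) : q - s • h ∈ F := by
  have h2 : q - s • h = (1 - s / t) • q + (s / t) • (q - t • h) := by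
    have h3 : (s / t) • t • h = s • h := by
      rw [smul_smul, div_mul_cancel₀ _ ht.ne']
    rw [smul_sub, h3]
    module
  rw [h2]
  refine hF.add _ (hF.smul _ ?_ _ hq) _ (hF.smul _ (div_nonneg hs ht.le) _ h1)
  rw [sub_nonneg]
  exact (div_le_one ht).mpr hst

/-- relative interior points exist -/
theorem exists_ri {F : Set E} (hF : IsCone F) : ∃ q, Ri F q := by
  have h1 : (Submodule.span ℝ F).FG := Module.Finite.iff_fg.mp inferInstance
  obtain ⟨s, hs, hsp⟩ := (Submodule.fg_span_iff_fg_span_finset_subset F).mp h1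
  refine ⟨∑ x ∈ s, x, ?_, fun h hh => ?_⟩
  · have : ∀ t : Finset E, (t : Set E) ⊆ F → ∑ x ∈ t, x ∈ F := by
      classical
      intro t
      induction t using Finset.induction_on with
      | empty => intro _; simpa using hF.zero
      | insert a t ha ih =>
        intro h
        rw [Finset.coe_insert, Set.insert_subset_iff] at h
        rw [Finset.sum_insert ha]
        exact hF.add _ h.1 _ (ih h.2)
    exact this s hs
  · have h2 : h ∈ Submodule.span ℝ (s : Set E) := by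
      rw [← hsp]
      exact Submodule.subset_span hh
    obtain ⟨c, -, hc⟩ := Submodule.mem_span_finset.mp h2
    obtain ⟨M, hM⟩ : ∃ M : ℝ, ∀ x ∈ s, c x ≤ M := by
      refine ⟨∑ x ∈ s, |c x|, fun x hx => (le_abs_self _).trans ?_⟩
      exact Finset.single_le_sum (f := fun x => |c x|) (fun y _ => abs_nonneg _) hx
    have hM' : ∀ x ∈ s, c x ≤ |M| + 1 := fun x hx => (hM x hx).trans (by
      have := le_abs_self M
      linarith)
    have hpos : 0 < |M| + 1 := by positivity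
    refine ⟨(|M| + 1)⁻¹, by positivity, ?_⟩
    have h3 : ∑ x ∈ s, x - (|M| + 1)⁻¹ • h = ∑ x ∈ s, (1 - (|M| + 1)⁻¹ * c x) • x := by
      rw [← hc, Finset.smul_sum, ← Finset.sum_sub_distrib]
      refine Finset.sum_congr rfl fun x _ => ?_
      rw [smul_smul, sub_smul, one_smul]
    rw [h3]
    have : ∀ t : Finset E, t ⊆ s → ∑ x ∈ t, (1 - (|M| + 1)⁻¹ * c x) • x ∈ F := by
      classical
      intro t
      induction t using Finset.induction_on with
      | empty => intro _; simpa using hF.zero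
      | insert a t ha ih =>
        intro h
        rw [Finset.insert_subset_iff] at h
        rw [Finset.sum_insert ha]
        refine hF.add _ (hF.smul _ ?_ _ (hs h.1)) _ (ih h.2)
        have h4 : (|M| + 1)⁻¹ * c a ≤ (|M| + 1)⁻¹ * (|M| + 1) :=
          mul_le_mul_of_nonneg_left (hM' a h.1) (by positivity)
        rw [inv_mul_cancel₀ hpos.ne'] at h4
        linarith
    exact this s (Finset.Subset.refl s)

/-- from a relative interior point one can move in all directions of the span -/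
theorem Ri.move {F : Set E} (hF : IsCone F) {q : E} (hq : Ri F q) {v : E}
    (hv : v ∈ Submodule.span ℝ F) : ∃ t₀ : ℝ, 0 < t₀ ∧ ∀ t, 0 ≤ t → t ≤ t₀ → q + t • v ∈ F := by
  obtain ⟨a, ha, b, hb, rfl⟩ := face_sub hF v hv
  obtain ⟨t₀, ht₀, h1⟩ := hq.2 b hb
  refine ⟨t₀, ht₀, fun t ht htt => ?_⟩
  have h2 := Ri.le hF hq.1 ht₀ h1 ht htt
  have h3 : q + t • (a - b) = (q - t • b) + t • a := by module
  rw [h3]
  exact hF.add _ h2 _ (hF.smul _ ht _ ha)

theorem Ri.of_span {F : Set E} {q : E} (hq : q ∈ F)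
    (h : ∀ v ∈ Submodule.span ℝ F, ∃ t : ℝ, 0 < t ∧ q + t • v ∈ F) : Ri F q := by
  refine ⟨hq, fun x hx => ?_⟩
  obtain ⟨t, ht, h1⟩ := h (-x) (Submodule.neg_mem _ (Submodule.subset_span hx))
  exact ⟨t, ht, by simpa [sub_eq_add_neg] using h1⟩

/-- a positive combination of a relative interior point and a point of the cone -/
theorem Ri.add {F : Set E} (hF : IsCone F) {q p : E} (hq : Ri F q) (hp : p ∈ F) {a : ℝ}
    (ha : 0 < a) : Ri F (a • q + p) := by
  refine ⟨hF.add _ (hF.smul _ ha.le _ hq.1) _ hp, fun h hh => ?_⟩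
  obtain ⟨t, ht, h1⟩ := hq.2 h hh
  refine ⟨a * t, mul_pos ha ht, ?_⟩
  have h2 : a • q + p - (a * t) • h = a • (q - t • h) + p := by
    rw [mul_smul]
    module
  rw [h2]
  exact hF.add _ (hF.smul _ ha.le _ h1) _ hp

section Fg

variable {L : Set E}

theorem fg_mem (hL : IsCone L) {g : E} (hg : g ∈ L) : g ∈ Fg L g :=
  ⟨hg, 1, one_pos, by simpa using hL.zero⟩

theorem fg_face (hL : IsCone L) {g : E} (hg : g ∈ L) : Face L (Fg L g) where
  cone := {
    zero := ⟨hL.zero, 1, one_pos, by simpa using hg⟩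
    add := by
      rintro x ⟨hx, t, ht, h1⟩ y ⟨hy, s, hs, h2⟩
      refine ⟨hL.add _ hx _ hy, min t s / 2, by positivity, ?_⟩
      have h3 := Ri.le hL hg ht h1 (lt_min ht hs).le (min_le_left t s)
      have h4 := Ri.le hL hg hs h2 (lt_min ht hs).le (min_le_right t s)
      have h5 : g - (min t s / 2) • (x + y) =
          (1 / 2 : ℝ) • (g - min t s • x) + (1 / 2 : ℝ) • (g - min t s • y) := by
        module
      rw [h5]
      exact hL.add _ (hL.smul _ (by norm_num) _ h3) _ (hL.smul _ (by norm_num) _ h4)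
    smul := by
      rintro c hc x ⟨hx, t, ht, h1⟩
      refine ⟨hL.smul _ hc _ hx, ?_⟩
      rcases hc.eq_or_lt with rfl | hc
      · exact ⟨1, one_pos, by simpa using hg⟩
      · refine ⟨t / c, by positivity, ?_⟩
        rw [smul_smul, div_mul_cancel₀ _ hc.ne']
        exact h1 }
  sub := fun _ hx => hx.1
  ext := by
    rintro x hx y hy ⟨-, t, ht, h1⟩
    refine ⟨hx, t, ht, ?_⟩
    have h2 : g - t • x = (g - t • (x + y)) + t • y := by module
    rw [h2]
    exact hL.add _ h1 _ (hL.smul _ ht.le _ hy)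

theorem fg_sub (hL : IsCone L) {F : Set E} (hF : Face L F) {g : E} (hg : g ∈ F) :
    Fg L g ⊆ F := by
  rintro x ⟨hx, t, ht, h1⟩
  have h2 : t • x ∈ F := hF.ext (t • x) (hL.smul _ ht.le _ hx) (g - t • x) h1 (by simpa using hg)
  have h3 : x = t⁻¹ • (t • x) := by rw [smul_smul, inv_mul_cancel₀ ht.ne', one_smul]
  rw [h3]
  exact hF.cone.smul _ (inv_nonneg.mpr ht.le) _ h2

/-- a point of a face is a relative interior point if it generates the face -/
theorem ri_of_fg (hL : IsCone L) {F : Set E} (hF : Face L F) {g : E} (hg : g ∈ F)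
    (h : F ⊆ Fg L g) : Ri F g := by
  refine ⟨hg, fun x hx => ?_⟩
  obtain ⟨-, t, ht, h1⟩ := h hx
  exact ⟨t, ht, hF.ext _ h1 (t • x) (hL.smul _ ht.le _ (hF.sub hx)) (by simpa using hg)⟩

theorem fg_of_ri {F : Set E} (hF : Face L F) {g : E} (hg : Ri F g) : F ⊆ Fg L g := by
  intro x hx
  obtain ⟨t, ht, h1⟩ := hg.2 x hx
  exact ⟨hF.sub hx, t, ht, hF.sub h1⟩

end Fg

/-! ### covers -/

theorem exists_cover {X : Type} [MetricSpace X] {S Q : Set X} (hS : IsCompact S) (_ : IsCompact Q)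
    {ρ : ℝ} (hρ : 0 < ρ) : ∃ A B : Set X, IsCompact A ∧ IsCompact B ∧ A ∪ B = S ∧
      (∀ y ∈ A, ∃ b ∈ Q, dist y b < ρ) ∧ B ∩ Q = ∅ ∧ A ⊆ S ∧ B ⊆ S := by
  have h1 : IsClosed (Metric.cthickening (ρ / 2) Q) := Metric.isClosed_cthickening
  have h2 : IsOpen (Metric.thickening (ρ / 2) Q) := Metric.isOpen_thickening
  refine ⟨S ∩ Metric.cthickening (ρ / 2) Q, S \ Metric.thickening (ρ / 2) Q, hS.inter_right h1,
    hS.diff h2, ?_, ?_, ?_, Set.inter_subset_left, Set.sdiff_subset⟩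
  · ext x
    constructor
    · rintro (h | h)
      · exact h.1
      · exact h.1
    · intro h
      by_cases hx : x ∈ Metric.thickening (ρ / 2) Q
      · exact Or.inl ⟨h, Metric.thickening_subset_cthickening _ _ hx⟩
      · exact Or.inr ⟨h, hx⟩
  · intro y hy
    have h3 : y ∈ Metric.thickening ρ Q :=
      Metric.cthickening_subset_thickening' hρ (by linarith) Q hy.2
    rw [Metric.mem_thickening_iff] at h3
    exact h3
  · ext x
    simp only [Set.mem_inter_iff, Set.mem_sdiff, Set.mem_empty_iff_false, iff_false, not_and]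
    intro h hx
    exact h.2 (Metric.self_subset_thickening (by linarith) Q hx)

/-! ### consequences -/

section WZ

variable {L Z : Set E} {lam : E →ₗ[ℝ] ℝ} {wz : Set E → Prop}

theorem WZ.smul (h : WZ L Z lam wz) {g : E} (hg : g ∈ Z) {c : ℝ} (hc : 0 ≤ c) : c • g ∈ Z := by
  rcases hc.eq_or_lt with rfl | hc
  · rw [zero_smul]
    exact h.zero
  · refine h.down g hg (c • g) (h.cpc.cone.smul _ hc.le _ (h.sub hg)) c⁻¹ (inv_pos.mpr hc) ?_
    rw [smul_smul, inv_mul_cancel₀ hc.ne', one_smul, sub_self]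
    exact h.cpc.cone.zero

theorem WZ.face_closed (h : WZ L Z lam wz) {F : Set E} (hF : Face L F) : IsClosed F :=
  (tFaceC tFace E L F h.cpc hF).closed

theorem WZ.sec_compact (h : WZ L Z lam wz) {F : Set E} (hF : Face L F) :
    IsCompact (SZ Z lam ∩ F) := h.cpt.inter_right (h.face_closed hF)

theorem WZ.ne_zero (_ : WZ L Z lam wz) {g : E} (hg : lam g = 1) : g ≠ 0 := by
  rintro rfl
  rw [map_zero] at hg
  exact zero_ne_one hg

theorem WZ.wz_empty (h : WZ L Z lam wz) : wz ∅ :=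
  h.h1 ∅ (Set.empty_subset _) isCompact_empty fun x => H_empty rfl x

/-- relative interior points of a face which is not thin are not in `Z` -/
theorem WZ.ri_notMem (h : WZ L Z lam wz) {F : Set E} (hF : Face L F) (hFZ : ¬ F ⊆ Z) {q : E}
    (hq : Ri F q) : q ∉ Z := by
  intro hqZ
  apply hFZ
  intro x hx
  obtain ⟨t, ht, h1⟩ := hq.2 x hx
  exact h.down q hqZ x (hF.sub hx) t ht (hF.sub h1)

/-- a class which vanishes on a compact set `Q`, and on all compact sets disjoint from `Q`, gives a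
contradiction -/
theorem WZ.absurd (h : WZ L Z lam wz) {Q : Set E} (hQ : Q ⊆ SZ Z lam) (hc : IsCompact Q)
    (h1 : wz Q) (h2 : ∀ B ⊆ SZ Z lam, IsCompact B → B ∩ Q = ∅ → wz B) : False := by
  obtain ⟨ρ, hρ, h3⟩ := h.taut Q hQ hc h1
  obtain ⟨A, B, hA, hB, hAB, hAd, hBQ, hAS, hBS⟩ := exists_cover h.cpt hc hρ
  exact h.split A B hA hB hAB (h3 A hAS hAd) (h2 B hBS hB hBQ)

/-- (i10) -/
theorem WZ.i10 (h : WZ L Z lam wz) {F : Set E} (hF : Face L F) (hFZ : ¬ F ⊆ Z) :
    ¬ wz (SZ Z lam ∩ F) := by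
  intro h1
  refine h.absurd Set.inter_subset_left (h.sec_compact hF) h1 fun B hB hBc hBQ => ?_
  refine h.block F hF hFZ B hB hBc ?_
  rw [← Set.subset_empty_iff, ← hBQ]
  exact fun x hx => ⟨hx.1, hB hx.1, hx.2⟩

/-- (i11) -/
theorem WZ.i11 (h : WZ L Z lam wz) {P : Set (E →ₗ[ℝ] ℝ)}
    (hP : ∀ p ∈ P, ∀ l ∈ L, 0 ≤ p l)
    (hs : ∀ p ∈ P, ∀ Q ⊆ SZ Z lam, IsCompact Q → (∀ g ∈ Q, 0 < p g) → wz Q) {p : E →ₗ[ℝ] ℝ}
    (hp : p ∈ P) : ¬ wz {g | g ∈ SZ Z lam ∧ p g = 0} := by
  intro h1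
  have hpc : Continuous p := p.continuous_of_finiteDimensional
  have hc : IsCompact {g | g ∈ SZ Z lam ∧ p g = 0} :=
    h.cpt.inter_right (isClosed_eq hpc continuous_const)
  refine h.absurd (fun x hx => hx.1) hc h1 fun B hB hBc hBQ => ?_
  refine hs p hp B hB hBc fun g hg => ?_
  refine lt_of_le_of_ne (hP p hp g (h.sub (hB hg).1)) fun h2 => ?_
  have : g ∈ B ∩ {g | g ∈ SZ Z lam ∧ p g = 0} := ⟨hg, hB hg, h2.symm⟩
  rw [hBQ] at this
  exact this

/-- sections of faces inside `Z` -/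
theorem WZ.thin (h : WZ L Z lam wz) {F : Set E} (hF : Face L F) (hFZ : F ⊆ Z) :
    wz (SZ Z lam ∩ F) := by
  have h1 : SZ Z lam ∩ F = F ∩ {g | lam g = 1} := by
    ext x
    exact ⟨fun hx => ⟨hx.2, hx.1.2⟩, fun hx => ⟨⟨hFZ hx.1, hx.2⟩, hx.1⟩⟩
  have hc := h.sec_compact hF
  rcases (SZ Z lam ∩ F).eq_empty_or_nonempty with h2 | h2
  · rw [h2]
    exact h.wz_empty
  · have hconv : Convex ℝ (SZ Z lam ∩ F) := by
      rw [h1]
      intro x hx y hy a b ha hb hab
      refine ⟨hF.cone.add _ (hF.cone.smul _ ha _ hx.1) _ (hF.cone.smul _ hb _ hy.1), ?_⟩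
      have hx2 : lam x = 1 := hx.2
      have hy2 : lam y = 1 := hy.2
      show lam (a • x + b • y) = 1
      rw [map_add, map_smul, map_smul, hx2, hy2, smul_eq_mul, smul_eq_mul, mul_one, mul_one, hab]
    exact h.h1 _ Set.inter_subset_left hc (fun x => (convex_acy hc h2 hconv).2.2 0 x)

/-- (a3), first part: the zero set of a limit of evaluations is not thin -/
theorem WZ.a3 (h : WZ L Z lam wz) {P : Set (E →ₗ[ℝ] ℝ)}
    (hP : ∀ p ∈ P, ∀ l ∈ L, 0 ≤ p l)
    (hs : ∀ p ∈ P, ∀ Q ⊆ SZ Z lam, IsCompact Q → (∀ g ∈ Q, 0 < p g) → wz Q)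
    {e : E →ₗ[ℝ] ℝ} (he : ∀ l ∈ L, 0 ≤ e l)
    (hlim : ∀ ε > 0, ∃ p ∈ P, ∃ t : ℝ, 0 ≤ t ∧ ∀ g ∈ SZ Z lam, |t * p g - e g| ≤ ε) :
    ¬ {l | l ∈ L ∧ e l = 0} ⊆ Z := by
  intro hZ
  have hec : Continuous e := e.continuous_of_finiteDimensional
  have hF : Face L {l | l ∈ L ∧ e l = 0} := by
    refine ⟨⟨⟨h.cpc.cone.zero, map_zero e⟩, ?_, ?_⟩, fun x hx => hx.1, ?_⟩
    · rintro x ⟨hx, hx'⟩ y ⟨hy, hy'⟩
      exact ⟨h.cpc.cone.add _ hx _ hy, by rw [map_add, hx', hy', add_zero]⟩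
    · rintro c hc x ⟨hx, hx'⟩
      exact ⟨h.cpc.cone.smul _ hc _ hx, by rw [map_smul, hx', smul_zero]⟩
    · rintro x hx y hy ⟨-, hxy⟩
      rw [map_add] at hxy
      have h1 := he x hx
      have h2 := he y hy
      exact ⟨hx, by linarith⟩
  have h1 := h.thin hF hZ
  obtain ⟨ρ, hρ, h2⟩ := h.taut _ Set.inter_subset_left (h.sec_compact hF) h1
  -- a bound `c` such that the points with `e g ≤ c` are near
  have h3 : ∃ c > 0, ∀ g ∈ SZ Z lam, e g ≤ c →
      ∃ b ∈ SZ Z lam ∩ {l | l ∈ L ∧ e l = 0}, dist g b < ρ := by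
    obtain ⟨A, B, hA, hB, hAB, hAd, hBQ, hAS, hBS⟩ := exists_cover h.cpt (h.sec_compact hF) hρ
    rcases B.eq_empty_or_nonempty with hBe | hBn
    · refine ⟨1, one_pos, fun g hg _ => hAd g ?_⟩
      rw [← hAB, hBe, Set.union_empty] at hg
      exact hg
    · obtain ⟨b, hb, hmin⟩ := hB.exists_isMinOn hBn hec.continuousOn
      have hb0 : 0 < e b := by
        refine lt_of_le_of_ne (he b (h.sub (hBS hb).1)) fun h4 => ?_
        have : b ∈ B ∩ (SZ Z lam ∩ {l | l ∈ L ∧ e l = 0}) :=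
          ⟨hb, hBS hb, h.sub (hBS hb).1, h4.symm⟩
        rw [hBQ] at this
        exact this
      refine ⟨e b / 2, by linarith, fun g hg hge => hAd g ?_⟩
      rw [← hAB] at hg
      rcases hg with hg | hg
      · exact hg
      · have := hmin hg
        have h7 : e b ≤ e g := this
        linarith
  obtain ⟨c, hc, h4⟩ := h3
  obtain ⟨p, hp, t, ht, h5⟩ := hlim c hc
  refine h.i11 hP hs hp (h2 _ (fun x hx => hx.1) ?_)
  rintro g ⟨hg, hpg⟩
  refine h4 g hg ?_
  have h6 := h5 g hg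
  rw [hpg, mul_zero, zero_sub, abs_neg] at h6
  exact (le_abs_self _).trans h6

/-- (a5): two faces which are not thin meet -/
theorem WZ.meet (h : WZ L Z lam wz) {F G : Set E} (hF : Face L F) (hG : Face L G)
    (hFZ : ¬ F ⊆ Z) (hGZ : ¬ G ⊆ Z) : ∃ x, x ∈ F ∧ x ∈ G ∧ x ≠ 0 := by
  by_contra hcon
  push Not at hcon
  refine h.i10 hF hFZ (h.block G hG hGZ _ Set.inter_subset_left (h.sec_compact hF) ?_)
  ext x
  simp only [Set.mem_inter_iff, Set.mem_empty_iff_false, iff_false, not_and]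
  rintro ⟨hx, hxF⟩ hxG
  exact h.ne_zero hx.2 (hcon x hxF hxG)

/-! ### bases of faces -/

/-- the base of a cone -/
def Bs (F : Set E) (lam : E →ₗ[ℝ] ℝ) : Set E := {x | x ∈ F ∧ lam x = 1}

theorem bs_convex {F : Set E} (hF : IsCone F) : Convex ℝ (Bs F lam) := by
  intro x hx y hy a b ha hb hab
  refine ⟨hF.add _ (hF.smul _ ha _ hx.1) _ (hF.smul _ hb _ hy.1), ?_⟩
  rw [map_add, map_smul, map_smul, hx.2, hy.2, smul_eq_mul, smul_eq_mul, mul_one, mul_one, hab]

theorem bs_compact (hL : CPC L) (hp : PosOn L lam) {F : Set E} (hF : Face L F) :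
    IsCompact (Bs F lam) := by
  obtain ⟨δ, hδ, h1⟩ := H4.exists_delta hL lam fun x hx h => by
    by_contra hx0
    exact (hp x hx hx0).ne' h
  have hFc : IsClosed F := (tFaceC tFace E L F hL hF).closed
  have hlc : Continuous lam := lam.continuous_of_finiteDimensional
  refine Metric.isCompact_of_isClosed_isBounded (hFc.inter (isClosed_eq hlc continuous_const)) ?_
  refine (Metric.isBounded_closedBall (x := (0 : E)) (r := δ⁻¹)).subset ?_
  rintro x ⟨hx, hx1⟩
  rw [mem_closedBall_zero_iff]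
  have h2 := h1 x (hF.sub hx)
  have hx1' : lam x = 1 := hx1
  rw [hx1', norm_one] at h2
  rw [inv_eq_one_div, le_div_iff₀ hδ, mul_comm]
  exact h2

theorem bs_ri {F : Set E} (hF : IsCone F) (hp : PosOn F lam) (h0 : ∃ x ∈ F, x ≠ 0) :
    ∃ q, Ri F q ∧ lam q = 1 := by
  obtain ⟨q, hq⟩ := exists_ri hF
  have hq0 : q ≠ 0 := by
    rintro rfl
    obtain ⟨x, hx, hx0⟩ := h0
    obtain ⟨t, ht, h1⟩ := hq.2 x hx
    have h2 : 0 < lam x := hp x hx hx0
    have h3 : (0 : E) - t • x ≠ 0 := by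
      rw [zero_sub, neg_ne_zero]
      exact smul_ne_zero ht.ne' hx0
    have h4 := hp _ h1 h3
    rw [map_sub, map_zero, map_smul, smul_eq_mul, zero_sub] at h4
    nlinarith
  have hl : 0 < lam q := hp q hq.1 hq0
  refine ⟨(lam q)⁻¹ • q, ?_, ?_⟩
  · have h1 := Ri.add hF hq hF.zero (inv_pos.mpr hl)
    rwa [add_zero] at h1
  · rw [map_smul, smul_eq_mul, inv_mul_cancel₀ hl.ne']

theorem vectorSpan_bs {F : Set E} (hF : IsCone F) (hp : PosOn F lam) (h0 : ∃ x ∈ F, x ≠ 0) :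
    vectorSpan ℝ (Bs F lam) = Submodule.span ℝ F ⊓ LinearMap.ker lam := by
  apply le_antisymm
  · rw [vectorSpan_def, Submodule.span_le]
    rintro _ ⟨x, hx, y, hy, rfl⟩
    refine ⟨Submodule.sub_mem _ (Submodule.subset_span hx.1) (Submodule.subset_span hy.1), ?_⟩
    show lam (x - y) = 0
    rw [map_sub, hx.2, hy.2, sub_self]
  · rintro v ⟨hv, hv0⟩
    have hv0' : lam v = 0 := hv0
    obtain ⟨q, hq, hq1⟩ := bs_ri hF hp h0
    obtain ⟨t, ht, h1⟩ := hq.move hF hv
    have h2 : q + t • v ∈ Bs F lam := ⟨h1 t ht.le le_rfl, by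
      rw [map_add, map_smul, hv0', hq1, smul_zero, add_zero]⟩
    have h3 : q ∈ Bs F lam := ⟨hq.1, hq1⟩
    have h4 : t • v ∈ vectorSpan ℝ (Bs F lam) := by
      have h5 := vsub_mem_vectorSpan ℝ h2 h3
      rwa [vsub_eq_sub, add_sub_cancel_left] at h5
    have h5 : v = t⁻¹ • (t • v) := by rw [smul_smul, inv_mul_cancel₀ ht.ne', one_smul]
    rw [h5]
    exact Submodule.smul_mem _ _ h4

theorem finrank_bs {F : Set E} (hF : IsCone F) (hp : PosOn F lam) (h0 : ∃ x ∈ F, x ≠ 0) :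
    finrank ℝ (vectorSpan ℝ (Bs F lam)) + 1 = sdim F := by
  rw [vectorSpan_bs hF hp h0]
  set V := Submodule.span ℝ F with hV
  have h1 : V ⊓ LinearMap.ker lam = (LinearMap.ker (lam.domRestrict V)).map V.subtype := by
    ext x
    simp only [Submodule.mem_inf, LinearMap.mem_ker, Submodule.mem_map, LinearMap.domRestrict_apply,
      Submodule.subtype_apply, Subtype.exists, exists_and_left, exists_prop]
    constructor
    · rintro ⟨hx, hx'⟩
      exact ⟨x, hx', hx, rfl⟩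
    · rintro ⟨y, hy, hy', rfl⟩
      exact ⟨hy', hy⟩
  have h2 : finrank ℝ (V ⊓ LinearMap.ker lam : Submodule ℝ E) =
      finrank ℝ (LinearMap.ker (lam.domRestrict V)) := by
    rw [h1]
    exact LinearEquiv.finrank_eq
      (Submodule.equivMapOfInjective V.subtype V.injective_subtype _).symm
  have h3 := LinearMap.finrank_range_add_finrank_ker (lam.domRestrict V)
  have h4 : LinearMap.range (lam.domRestrict V) = ⊤ := by
    rw [LinearMap.range_eq_top]
    obtain ⟨q, hq, hq1⟩ := bs_ri hF hp h0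
    intro c
    refine ⟨c • ⟨q, Submodule.subset_span hq.1⟩, ?_⟩
    rw [map_smul, LinearMap.domRestrict_apply, hq1, smul_eq_mul, mul_one]
  rw [h4, finrank_top, finrank_self] at h3
  rw [h2]
  unfold sdim
  rw [← hV]
  omega

theorem rint_bs_iff {F : Set E} (hF : IsCone F) (hp : PosOn F lam) {x : E} (hx : x ∈ F)
    (hx1 : lam x = 1) : x ∈ RInt (Bs F lam) ↔ Ri F x := by
  constructor
  · rintro ⟨-, h1⟩
    refine ⟨hx, fun y hy => ?_⟩
    by_cases hy0 : y = 0
    · exact ⟨1, one_pos, by rw [hy0, smul_zero, sub_zero]; exact hx⟩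
    · have hl : 0 < lam y := hp y hy hy0
      obtain ⟨t, ht, h2⟩ := h1 ((lam y)⁻¹ • y) ⟨hF.smul _ (inv_nonneg.mpr hl.le) _ hy, by
        rw [map_smul, smul_eq_mul, inv_mul_cancel₀ hl.ne']⟩
      refine ⟨t * (lam y)⁻¹ / (1 + t), by positivity, ?_⟩
      have h3 : x - (t * (lam y)⁻¹ / (1 + t)) • y =
          (1 + t)⁻¹ • (x - t • ((lam y)⁻¹ • y - x)) := by
        have h4 : x = (1 + t)⁻¹ • ((1 + t) • x) := by
          rw [smul_smul, inv_mul_cancel₀ (by positivity), one_smul]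
        have h5 : (t * (lam y)⁻¹ / (1 + t)) • y = (1 + t)⁻¹ • (t • (lam y)⁻¹ • y) := by
          rw [smul_smul, smul_smul]
          congr 1
          field_simp
        rw [h5]
        nth_rewrite 1 [h4]
        rw [← smul_sub]
        congr 1
        module
      rw [h3]
      exact hF.smul _ (by positivity) _ h2.1
  · intro h
    refine ⟨⟨hx, hx1⟩, ?_⟩
    rintro y ⟨hy, hy1⟩
    obtain ⟨s, hs, h1⟩ := h.2 y hy
    have h2 := Ri.le hF hx hs h1 (s := min s (1 / 2)) (by positivity) (min_le_left _ _)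
    set r := min s (1 / 2) with hr
    have hr0 : 0 < r := by positivity
    have hr1 : r ≤ 1 / 2 := min_le_right _ _
    have h5 : 0 < 1 - r := by linarith
    refine ⟨r / (1 - r), by positivity, ?_, ?_⟩
    · have h3 : x - (r / (1 - r)) • (y - x) = (1 - r)⁻¹ • (x - r • y) := by
        have h4 : x = (1 - r)⁻¹ • ((1 - r) • x) := by
          rw [smul_smul, inv_mul_cancel₀ h5.ne', one_smul]
        have h6 : (r / (1 - r)) • (y - x) = (1 - r)⁻¹ • (r • (y - x)) := by
          rw [smul_smul]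
          congr 1
          field_simp
        rw [h6]
        nth_rewrite 1 [h4]
        rw [← smul_sub]
        congr 1
        module
      rw [h3]
      exact hF.smul _ (inv_nonneg.mpr h5.le) _ h2
    · have hy1' : lam y = 1 := hy1
      rw [map_sub, map_smul, map_sub, hx1, hy1', sub_self, smul_zero, sub_zero]

/-- the section of `Z` by a minimal face which is not thin is the relative boundary of its base -/
theorem WZ.sec_eq (h : WZ L Z lam wz) {F : Set E} (hF : Face L F) (hFZ : ¬ F ⊆ Z)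
    (hmin : ∀ G, Face L G → G ⊆ F → G ≠ F → G ⊆ Z) : SZ Z lam ∩ F = RBd (Bs F lam) := by
  have hp : PosOn F lam := fun x hx hx0 => h.pos x (hF.sub hx) hx0
  ext x
  rw [P33.mem_RBd_iff]
  constructor
  · rintro ⟨⟨hxZ, hx1⟩, hxF⟩
    refine ⟨⟨hxF, hx1⟩, fun h1 => ?_⟩
    exact h.ri_notMem hF hFZ ((rint_bs_iff hF.cone hp hxF hx1).mp h1) hxZ
  · rintro ⟨⟨hxF, hx1⟩, h1⟩
    refine ⟨⟨?_, hx1⟩, hxF⟩
    rw [rint_bs_iff hF.cone hp hxF hx1] at h1
    have hxL := hF.sub hxF
    refine hmin (Fg L x) (fg_face h.cpc.cone hxL) (fg_sub h.cpc.cone hF hxF) (fun h2 => h1 ?_)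
      (fg_mem h.cpc.cone hxL)
    exact ri_of_fg h.cpc.cone hF hxF h2.symm.subset

/-- the unit sphere of a space of dimension at most one is finite -/
theorem sphere_finite {m : ℕ} (hm : m ≤ 1) :
    (Metric.sphere (0 : EuclideanSpace ℝ (Fin m)) 1).Finite := by
  have h1 : ∀ x ∈ Metric.sphere (0 : EuclideanSpace ℝ (Fin m)) 1, ∀ i, x i = 1 ∨ x i = -1 := by
    intro x hx i
    rw [mem_sphere_zero_iff_norm] at hx
    have hm1 : m = 1 := by
      have := i.pos
      omega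
    subst hm1
    have h2 : ‖x‖ ^ 2 = ∑ j, (x j) ^ 2 := by
      rw [EuclideanSpace.norm_sq_eq]
      simp
    rw [hx, Fin.sum_univ_one] at h2
    have h3 : (x 0 - 1) * (x 0 + 1) = 0 := by linarith
    have h4 : i = 0 := Subsingleton.elim _ _
    rw [h4]
    rcases mul_eq_zero.mp h3 with h5 | h5
    · exact Or.inl (by linarith)
    · exact Or.inr (by linarith)
  have h2 : (Set.pi Set.univ (fun _ : Fin m => ({1, -1} : Set ℝ))).Finite :=
    Set.Finite.pi fun _ => Set.toFinite _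
  refine (h2.preimage (f := fun x : EuclideanSpace ℝ (Fin m) => fun i => x i) ?_).subset ?_
  · intro x _ y _ hxy
    ext i
    exact congrFun hxy i
  · intro x hx i _
    exact h1 x hx i

/-- (a4): a face which is not thin contains a line -/
theorem WZ.line (h : WZ L Z lam wz) : ∀ (n : ℕ) (F : Set E), Face L F → ¬ F ⊆ Z → sdim F = n →
    ∃ G, G ⊆ F ∧ Line L Z G := by
  intro n
  induction n using Nat.strong_induction_on with
  | _ n ih =>
  intro F hF hFZ hn
  by_cases hmin : ∀ G, Face L G → G ⊆ F → G ≠ F → G ⊆ Z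
  · by_cases h3 : sdim F = 3
    · exact ⟨F, Set.Subset.refl F, hF, hFZ, h3⟩
    · exfalso
      refine h.i10 hF hFZ ?_
      have hp : PosOn F lam := fun x hx hx0 => h.pos x (hF.sub hx) hx0
      have h0 : ∃ x ∈ F, x ≠ 0 := by
        by_contra hcon
        push Not at hcon
        apply hFZ
        intro x hx
        rw [hcon x hx]
        exact h.zero
      have hd := finrank_bs hF.cone hp h0
      have hBc := bs_compact h.cpc h.pos hF
      have hBv := bs_convex (lam := lam) hF.cone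
      have hS := h.sec_compact hF
      refine h.h1 _ Set.inter_subset_left hS ?_
      have hE := h.sec_eq hF hFZ hmin
      rcases Nat.lt_or_ge (finrank ℝ (vectorSpan ℝ (Bs F lam))) 2 with h4 | h4
      · -- the boundary is finite
        have hne : (Bs F lam).Nonempty := by
          obtain ⟨q, hq, hq1⟩ := bs_ri hF.cone hp h0
          exact ⟨q, hq.1, hq1⟩
        obtain ⟨φ, ψ, -, -, -, h5, -, h6⟩ := P33.bd_homeo hBc hBv hne
          (V := EuclideanSpace ℝ (Fin (finrank ℝ (vectorSpan ℝ (Bs F lam))))) (by simp)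
        have hfin : (RBd (Bs F lam)).Finite := by
          refine ((sphere_finite (by omega : finrank ℝ (vectorSpan ℝ (Bs F lam)) ≤ 1)).image
            φ).subset fun x hx => ?_
          exact ⟨ψ x, h5 x hx, h6 x hx⟩
        rw [← hE] at hfin
        exact okN1 E ⊥ ∅ _ 0 hfin
      · obtain ⟨m, hm⟩ := Nat.exists_eq_add_of_le h4
        rw [Nat.add_comm] at hm
        obtain ⟨s, hs⟩ := bd_bas hBc hBv m hm
        rw [hE]
        exact hs.2.2.2.2 1 one_ne_zero (by omega)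
  · push Not at hmin
    obtain ⟨G, hG, hGF, hGne, hGZ⟩ := hmin
    have hlt : sdim G < n := by
      by_contra hcon
      push Not at hcon
      exact hGne (((tFace E L G hG).2.1 F hF hGF (by omega)))
    obtain ⟨G', hG'⟩ := ih (sdim G) hlt G hG hGZ rfl
    exact ⟨G', hG'.1.trans hGF, hG'.2⟩

end WZ

end basic

end Geo5

end TightRP
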