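import Pool.Agent.Lib.MP_7cdc3e_gt.C.T4.Brg

/-!
# MP_7cdc3e_gt, C32, T4: the elementary fields of `T4c.Hyp`
-/

set_option autoImplicit false

open scoped RealInnerProductSpace
open Module HoloConj Pool.Agent.Lib.SingHom
open C32.T4b (KS E1 Bs Ln Fa)

namespace TightRP

namespace C3

variable {ev : W →ₗ[ℝ] (RP3 → ℝ)} {z : RP3}

/-- the limits of evaluations, as vectors -/
def EK (ev : W →ₗ[ℝ] (RP3 → ℝ)) (z : RP3) (h : KK ev z) : Set (KK ev z) :=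
  {w | ∃ t : ℝ, 0 ≤ t ∧ ∃ e ∈ E1 (eK ev z) h, ∀ k, ⟪w, k⟫ = t * e k}

/-- the data of a regular point -/
structure Pt (F : Type) [Field F] (ev : W →ₗ[ℝ] (RP3 → ℝ)) (z : RP3) (h : KK ev z) : Prop where
  sys : CSys F ev
  reg : Reg ev z
  ri : RI (Nf ev z) (h : W)
  nf : IsFace ev (Nf ev z)
  ks : KS (eK ev z) h
  ln : ∀ l : KK ev z, l ∈ Ln (eK ev z) ↔ (l : W) ∈ Nf ev z
  hev : Even (Zr ev (h : W))

variable {F : Type} [Field F] {h : KK ev z}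

theorem Pt.mem (P : Pt F ev z h) (k : KK ev z) : k ∈ LK ev z ↔ ∀ y, 0 ≤ ⟪vK ev z y, k⟫ := by
  have h1 : k ∈ LK ev z ↔ k ∈ Ln (eK ev z) := (P.ln k).symm
  rw [h1]
  constructor
  · intro h2 y
    rw [inner_vK]
    exact h2 y
  · intro h2 y
    have h3 := h2 y
    rw [inner_vK] at h3
    exact h3

theorem Pt.zero_of (P : Pt F ev z h) {k : KK ev z} (hk : ∀ y, ev (k : W) y = 0) : k = 0 := by
  have h1 : ev (k : W) = ev 0 := by
    rw [map_zero]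
    funext y
    exact hk y
  exact Subtype.ext (P.sys.inj h1)

theorem Pt.cone (P : Pt F ev z h) : T4c.IsCone (LK ev z) := by
  refine ⟨?_, P.nf.zero, fun x hx y hy => P.nf.add _ hx _ hy,
    fun x hx t ht => P.nf.smul t ht _ hx, fun x hx hx' => ?_⟩
  · have h1 : LK ev z = ⋂ y, {k : KK ev z | 0 ≤ ⟪vK ev z y, k⟫} := by
      ext k
      rw [P.mem, Set.mem_iInter]
      exact Iff.rfl
    rw [h1]
    exact isClosed_iInter fun y => isClosed_le continuous_const (by fun_prop)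
  · refine P.zero_of fun y => ?_
    have h1 := (P.mem x).1 hx y
    have h2 := (P.mem (-x)).1 hx' y
    rw [inner_neg_right] at h2
    rw [inner_vK] at h1 h2
    linarith

theorem Pt.int (P : Pt F ev z h) : h ∈ interior (LK ev z) := by
  have hb := fun i => P.ks.bd (stdOrthonormalBasis ℝ (KK ev z) i)
  choose s hs hs' using hb
  set C : ℝ := ∑ i, s i with hC
  have hC0 : 0 ≤ C := Finset.sum_nonneg fun i _ => hs i
  have key : ∀ (k : KK ev z) (y : RP3), |ev (k : W) y| ≤ ‖k‖ * C * ev (h : W) y := by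
    intro k y
    have h1 : ev (k : W) y = ∑ i, ⟪stdOrthonormalBasis ℝ (KK ev z) i, k⟫ *
        ev ((stdOrthonormalBasis ℝ (KK ev z) i : KK ev z) : W) y := by
      have h2 := inner_vK (ev := ev) (z := z) y k
      rw [← h2]
      conv_lhs => rw [← (stdOrthonormalBasis ℝ (KK ev z)).sum_repr' k]
      rw [inner_sum]
      refine Finset.sum_congr rfl fun i _ => ?_
      rw [inner_smul_right, inner_vK]
    rw [h1]
    refine (Finset.abs_sum_le_sum_abs _ _).trans ?_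
    rw [hC, Finset.mul_sum, Finset.sum_mul]
    refine Finset.sum_le_sum fun i _ => ?_
    rw [abs_mul, mul_assoc]
    refine mul_le_mul ?_ (hs' i y) (abs_nonneg _) (norm_nonneg _)
    have h3 := abs_real_inner_le_norm (stdOrthonormalBasis ℝ (KK ev z) i) k
    rw [(stdOrthonormalBasis ℝ (KK ev z)).norm_eq_one i, one_mul] at h3
    exact h3
  rw [mem_interior_iff_mem_nhds, Metric.mem_nhds_iff]
  refine ⟨(C + 1)⁻¹, by positivity, fun k hk => ?_⟩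
  rw [P.mem]
  intro y
  rw [inner_vK]
  have h1 := key (k - h) y
  have h2 : ev ((k - h : KK ev z) : W) y = ev (k : W) y - ev (h : W) y := by
    rw [Submodule.coe_sub, map_sub]
    rfl
  rw [h2] at h1
  have h3 : ‖k - h‖ < (C + 1)⁻¹ := by
    rw [← dist_eq_norm]
    exact hk
  have h4 : ‖k - h‖ * C ≤ 1 := by
    have h5 : ‖k - h‖ * C ≤ (C + 1)⁻¹ * (C + 1) :=
      mul_le_mul h3.le (by linarith) hC0 (by positivity)
    rwa [inv_mul_cancel₀ (by linarith)] at h5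
  have h5 : 0 ≤ ev (h : W) y := P.ks.nn y
  have h6 := mul_le_mul_of_nonneg_right h4 h5
  have h7 := (abs_le.1 h1).1
  linarith

theorem Pt.vE (P : Pt F ev z h) (y : RP3) : vK ev z y ∈ EK ev z h := by
  rcases (P.ks.nn y).lt_or_eq with hy | hy
  · obtain ⟨e, he, h1⟩ := C32.T4b.exists_beta P.ks hy
    refine ⟨ev (h : W) y, hy.le, e, he, fun k => ?_⟩
    rw [inner_vK, h1 k]
    have hy' : ev (h : W) y ≠ 0 := hy.ne'
    show ev (k : W) y = ev (h : W) y * (ev (k : W) y / ev (h : W) y)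
    field_simp
  · obtain ⟨y₀, hy₀⟩ := P.ks.pos
    obtain ⟨e, he, _⟩ := C32.T4b.exists_beta P.ks hy₀
    refine ⟨0, le_rfl, e, he, fun k => ?_⟩
    rw [inner_vK, zero_mul]
    exact P.ks.zero k hy.symm

theorem Pt.Esub (P : Pt F ev z h) : EK ev z h ⊆ T4c.Du (LK ev z) := by
  rintro w ⟨t, ht, e, he, h1⟩ k hk
  rw [h1]
  exact mul_nonneg ht ((C32.T4b.E1_sub P.ks he).1 k ((P.ln k).2 hk))

theorem Pt.Esm : ∀ e ∈ EK ev z h, ∀ t : ℝ, 0 ≤ t → t • e ∈ EK ev z h := by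
  rintro w ⟨s, hs, e, he, h1⟩ t ht
  refine ⟨t * s, mul_nonneg ht hs, e, he, fun k => ?_⟩
  have h2 : ⟪t • w, k⟫ = t * ⟪w, k⟫ := real_inner_smul_left w k t
  rw [h2, h1, mul_assoc]

theorem Pt.Zsub (P : Pt F ev z h) : ∀ g ∈ ZT ev z, g ∈ LK ev z ∧ g ≠ 0 := by
  intro g hg
  obtain ⟨h1, h2, -, -⟩ := hg
  refine ⟨(P.ln g).1 fun y => h1 y, ?_⟩
  rintro rfl
  exact h2 rfl

theorem Pt.a1 (P : Pt F ev z h) : ∀ r ∈ ZT ev z, ∀ p ∈ LK ev z, p ≠ 0 →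
    (∀ y, ⟪vK ev z y, r⟫ = 0 → ⟪vK ev z y, p⟫ = 0) → p ∈ ZT ev z := by
  intro r hr p hp h0 h1
  refine ⟨hp.1, fun h2 => h0 (Subtype.ext h2), ⟨z, hp.2⟩, ?_⟩
  obtain ⟨hr1, -, -, hr2⟩ := hr
  refine hr2.mono fun y hy => ?_
  have h2 : ev (r : W) y ≠ 0 := fun h3 => by
    have h4 := h1 y (by rw [inner_vK]; exact h3)
    rw [inner_vK] at h4
    exact (ne_of_gt hy) h4
  exact lt_of_le_of_ne (hr1 y) h2.symm

theorem Pt.a2 (P : Pt F ev z h) (h2 : C32.T4b.S_A2) : ∀ g ∈ ZT ev z, g ∉ interior (LK ev z) := by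
  intro g hg hi
  have h1 := h2 F ev P.sys (g : W) hg (g : W) hg
  apply h1
  obtain ⟨t, ht, h3⟩ := T4c.Fa_pos P.cone (interior_subset hi)
    ((T4c.interior_Fa hi P.cone).symm ▸ interior_subset P.int : h ∈ T4c.Fa (LK ev z) g)
  have h4 := (P.mem _).1 (h3 t le_rfl)
  refine P.hev.mono fun y hy => ?_
  have h5 := h4 y
  rw [inner_sub_right, inner_smul_right, inner_vK, inner_vK] at h5
  have h6 : ev (g : W) y = 0 := by
    have h7 : ev ((g : W) + (g : W)) y = 0 := hy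
    rw [map_add, Pi.add_apply] at h7
    linarith
  rw [h6, mul_zero] at h5
  have h7 : 0 ≤ ev (h : W) y := P.ks.nn y
  show ev (h : W) y = 0
  linarith

theorem Pt.a3 (P : Pt F ev z h) (h3 : A3Stmt) : ∀ e ∈ EK ev z h, e ≠ 0 →
    ∃ x ∈ LK ev z, ⟪e, x⟫ = 0 ∧ x ≠ 0 ∧ x ∉ ZT ev z := by
  rintro w ⟨t, ht, e, he, h1⟩ hw
  obtain ⟨g, hg, h4, h5, h6⟩ := h3 F ev P.sys z P.reg h P.ri e he
  exact ⟨g, hg, by rw [h1, h4, mul_zero], h5, h6⟩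

theorem Pt.a4 (P : Pt F ev z h) (h4 : A4Stmt) : ∀ G, T4c.Fc (LK ev z) G →
    ¬ T4c.Thin (ZT ev z) G → ∃ G', G' ⊆ G ∧ T4c.Fc (LK ev z) G' ∧ ¬ T4c.Thin (ZT ev z) G' ∧
      T4c.dm G' = 3 := by
  intro G hG hT
  obtain ⟨Φ, h1, h2, h3⟩ := h4 F ev P.sys z P.reg _ (nthin_im P.nf hG hT)
  refine ⟨pre ev z Φ, ?_, (nthin_pre h2).1, (nthin_pre h2).2, ?_⟩
  · rw [← pre_im G]
    exact fun k hk => h1 hk
  · rw [dm_pre h2.sub, h3]

theorem Pt.a5 (P : Pt F ev z h) (h5 : A5Stmt) : ∀ G G', T4c.Fc (LK ev z) G →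
    T4c.Fc (LK ev z) G' → ¬ T4c.Thin (ZT ev z) G → ¬ T4c.Thin (ZT ev z) G' →
      ∃ x ∈ G, x ∈ G' ∧ x ≠ 0 := by
  intro G G' hG hG' hT hT'
  obtain ⟨g, ⟨k, hk, rfl⟩, h2, h3⟩ := h5 F ev P.sys z P.reg _ _ (nthin_im P.nf hG hT)
    (nthin_im P.nf hG' hT')
  refine ⟨k, hk, ?_, fun h0 => h3 (congrArg Subtype.val h0)⟩
  rw [← pre_im G']
  exact h2

theorem Pt.a8 (P : Pt F ev z h) (h8 : A8Stmt) : ∀ G, T4c.Fc (LK ev z) G →
    ¬ T4c.Thin (ZT ev z) G → T4c.dm G = 4 → ∃ G₁ G₂, G₁ ≠ G₂ ∧ G₁ ⊆ G ∧ G₂ ⊆ G ∧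
    (T4c.Fc (LK ev z) G₁ ∧ ¬ T4c.Thin (ZT ev z) G₁ ∧ T4c.dm G₁ = 3) ∧ T4c.Fc (LK ev z) G₂ ∧
      ¬ T4c.Thin (ZT ev z) G₂ ∧ T4c.dm G₂ = 3 := by
  intro G hG hT hd
  obtain ⟨Φ₁, Φ₂, hne, h1, h2, ⟨h3, h3'⟩, h4, h4'⟩ := h8 F ev P.sys z P.reg _
    (nthin_im P.nf hG hT) (by rw [dm_im, hd])
  refine ⟨pre ev z Φ₁, pre ev z Φ₂, fun hc => hne ?_, ?_, ?_, ⟨(nthin_pre h3).1,
    (nthin_pre h3).2, by rw [dm_pre h3.sub, h3']⟩, (nthin_pre h4).1, (nthin_pre h4).2,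
    by rw [dm_pre h4.sub, h4']⟩
  · rw [← im_pre h3.sub, ← im_pre h4.sub, hc]
  · rw [← pre_im G]
    exact fun k hk => h1 hk
  · rw [← pre_im G]
    exact fun k hk => h2 hk

theorem Pt.a7 (P : Pt F ev z h) (h7 : C32.T4b.S_A7) : ∀ R, T4c.Fc (LK ev z) R →
    T4c.Thin (ZT ev z) R → T4c.dm R ≤ 3 → ∃ e ∈ EK ev z h, ∀ x ∈ R, x ≠ 0 → 0 < ⟪e, x⟫ := by
  intro R hR hT _
  obtain ⟨y, hy⟩ := h7 F ev P.sys (im R) (im_face P.nf hR) (by
    rintro _ ⟨k, hk, rfl⟩ h0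
    exact hT k hk fun h1 => h0 (congrArg Subtype.val h1))
  refine ⟨vK ev z y, P.vE y, fun x hx h0 => ?_⟩
  rw [inner_vK]
  exact hy x ⟨x, hx, rfl⟩ fun h1 => h0 (Subtype.ext h1)

end C3

end TightRP
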