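import Pool.Agent.Lib.MP_7cdc3e_gt.C.T4.HypA

/-!
# MP_7cdc3e_gt, C32, T4: faces of the dual cone and their bases; (a11), FILL'
-/

set_option autoImplicit false

open scoped RealInnerProductSpace
open Module HoloConj Pool.Agent.Lib.SingHom
open C32.T4b (KS E1 Bs Ln Fa)

namespace TightRP

namespace C3

variable {ev : W →ₗ[ℝ] (RP3 → ℝ)} {z : RP3} {F : Type} [Field F] {h : KK ev z}

/-- the vector of a functional -/
noncomputable def vec (ev : W →ₗ[ℝ] (RP3 → ℝ)) (z : RP3) (e : KK ev z →L[ℝ] ℝ) : KK ev z :=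
  (InnerProductSpace.toDual ℝ (KK ev z)).symm e

theorem inner_vec (e : KK ev z →L[ℝ] ℝ) (k : KK ev z) : ⟪vec ev z e, k⟫ = e k :=
  InnerProductSpace.toDual_symm_apply

theorem vec_comb (a b : ℝ) (e e' : KK ev z →L[ℝ] ℝ) :
    vec ev z (a • e + b • e') = a • vec ev z e + b • vec ev z e' := by
  unfold vec
  rw [map_add, map_smulₛₗ, map_smulₛₗ]
  rfl

theorem vec_cont : Continuous (vec ev z) :=
  (InnerProductSpace.toDual ℝ (KK ev z)).symm.continuous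

theorem exists_vec (w : KK ev z) : ∃ e : KK ev z →L[ℝ] ℝ, vec ev z e = w :=
  ⟨InnerProductSpace.toDual ℝ (KK ev z) w, (InnerProductSpace.toDual ℝ (KK ev z)).symm_apply_apply w⟩

/-- the base of a face of the dual cone -/
def bas (ev : W →ₗ[ℝ] (RP3 → ℝ)) (z : RP3) (h : KK ev z) (Y : Set (KK ev z)) :
    Set (KK ev z →L[ℝ] ℝ) := {e | e h = 1 ∧ vec ev z e ∈ Y}

theorem Pt.du_cone (P : Pt F ev z h) : T4c.IsCone (T4c.Du (LK ev z)) := T4c.Du_cone ⟨h, P.int⟩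

theorem Pt.mem_Bs (P : Pt F ev z h) {e : KK ev z →L[ℝ] ℝ} (h1 : e h = 1) :
    e ∈ Bs (eK ev z) h ↔ vec ev z e ∈ T4c.Du (LK ev z) := by
  constructor
  · rintro ⟨h2, _⟩ k hk
    rw [inner_vec]
    exact h2 k ((P.ln k).2 hk)
  · intro h2
    refine ⟨fun l hl => ?_, h1⟩
    have h3 := h2 l ((P.ln l).1 hl)
    rwa [inner_vec] at h3

/-- a nonzero element of the dual cone is a positive multiple of an element of the base -/
theorem Pt.exists_base (P : Pt F ev z h) {w : KK ev z} (hw : w ∈ T4c.Du (LK ev z)) (h0 : w ≠ 0) :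
    0 < ⟪w, h⟫ ∧ ∃ e : KK ev z →L[ℝ] ℝ, e h = 1 ∧ vec ev z e = ⟪w, h⟫⁻¹ • w ∧
      ∀ k, ⟪w, k⟫ = ⟪w, h⟫ * e k := by
  have h1 : 0 < ⟪w, h⟫ := T4c.Du_pos hw h0 P.int
  obtain ⟨e, he⟩ := exists_vec (⟪w, h⟫⁻¹ • w)
  have h2 : ∀ k, e k = ⟪w, h⟫⁻¹ * ⟪w, k⟫ := fun k => by
    rw [← inner_vec, he]
    exact real_inner_smul_left w k _
  refine ⟨h1, e, ?_, he, fun k => ?_⟩
  · rw [h2, inv_mul_cancel₀ h1.ne']
  · rw [h2, ← mul_assoc, mul_inv_cancel₀ h1.ne', one_mul]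

theorem Pt.bas_Fa (P : Pt F ev z h) {Y : Set (KK ev z)} (hY : T4c.Fc (T4c.Du (LK ev z)) Y)
    (hne : ∃ w ∈ Y, w ≠ 0) : Fa (eK ev z) h (bas ev z h Y) := by
  have hmem : ∀ e ∈ bas ev z h Y, e ∈ Bs (eK ev z) h := fun e he =>
    (P.mem_Bs he.1).2 (hY.sub he.2)
  refine ⟨⟨hmem, ?_⟩, ?_, ?_, ?_⟩
  · intro x hx y hy p hp hpo
    obtain ⟨a, b, ha, hb, hab, rfl⟩ := hpo
    refine ⟨hx.2, ?_⟩
    have h1 : a • vec ev z x + b • vec ev z y ∈ Y := by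
      rw [← vec_comb]
      exact hp.2
    have h2 : a • vec ev z x ∈ T4c.Du (LK ev z) :=
      T4c.Du_smul _ ((P.mem_Bs hx.2).1 hx) a ha.le
    have h3 : b • vec ev z y ∈ T4c.Du (LK ev z) :=
      T4c.Du_smul _ ((P.mem_Bs hy.2).1 hy) b hb.le
    exact hY.of_smul ha (hY.ext _ h2 _ h3 h1)
  · rintro x ⟨hx, hx'⟩ y ⟨hy, hy'⟩ a b ha hb hab
    refine ⟨?_, ?_⟩
    · show a * x h + b * y h = 1
      rw [hx, hy, mul_one, mul_one, hab]
    · rw [vec_comb]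
      exact hY.add _ (hY.smul _ hx' a ha) _ (hY.smul _ hy' b hb)
  · have h1 : bas ev z h Y = {e | e h = 1} ∩ (vec ev z) ⁻¹' Y := rfl
    rw [h1]
    exact (isClosed_eq (C32.T4b.continuous_eval h) continuous_const).inter
      ((hY.closed P.du_cone).preimage vec_cont)
  · obtain ⟨w, hw, h0⟩ := hne
    obtain ⟨h1, e, h2, h3, _⟩ := P.exists_base (hY.sub hw) h0
    exact ⟨e, h2, by rw [h3]; exact hY.smul _ hw _ (inv_nonneg.2 h1.le)⟩

theorem Pt.bas_dm {Y : Set (KK ev z)} :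
    finrank ℝ (Submodule.span ℝ (bas ev z h Y)) ≤ T4c.dm Y := by
  let T : (KK ev z) →ₗ[ℝ] (KK ev z →L[ℝ] ℝ) :=
    { toFun := fun w => InnerProductSpace.toDual ℝ (KK ev z) w
      map_add' := fun x y => map_add _ _ _
      map_smul' := fun c x => by
        rw [map_smulₛₗ]
        rfl }
  have h1 : Submodule.span ℝ (bas ev z h Y) ≤ (Submodule.span ℝ Y).map T := by
    rw [Submodule.span_le]
    rintro e ⟨_, he⟩
    refine ⟨vec ev z e, Submodule.subset_span he, ?_⟩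
    exact (InnerProductSpace.toDual ℝ (KK ev z)).apply_symm_apply e
  exact (Submodule.finrank_mono h1).trans (Submodule.finrank_map_le _ _)

/-- if the base of a face consists of limits of evaluations, so does the face -/
theorem Pt.sub_EK (P : Pt F ev z h) {Y : Set (KK ev z)} (hY : T4c.Fc (T4c.Du (LK ev z)) Y)
    (hb : bas ev z h Y ⊆ E1 (eK ev z) h) : Y ⊆ EK ev z h := by
  intro w hw
  by_cases h0 : w = 0
  · obtain ⟨y₀, hy₀⟩ := P.ks.pos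
    obtain ⟨e, he, _⟩ := C32.T4b.exists_beta P.ks hy₀
    refine ⟨0, le_rfl, e, he, fun k => ?_⟩
    rw [h0, inner_zero_left, zero_mul]
  · obtain ⟨h1, e, h2, h3, h4⟩ := P.exists_base (hY.sub hw) h0
    exact ⟨⟪w, h⟫, h1.le, e, hb ⟨h2, by rw [h3]; exact hY.smul _ hw _ (inv_nonneg.2 h1.le)⟩, h4⟩

theorem Pt.zero_EK (P : Pt F ev z h) : (0 : KK ev z) ∈ EK ev z h := by
  obtain ⟨y₀, hy₀⟩ := P.ks.pos
  obtain ⟨e, he, _⟩ := C32.T4b.exists_beta P.ks hy₀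
  exact ⟨0, le_rfl, e, he, fun k => by rw [inner_zero_left, zero_mul]⟩

theorem Pt.a11 (P : Pt F ev z h) (h11 : C32.T4b.S_A11) : ∀ Y, T4c.Fc (T4c.Du (LK ev z)) Y →
    T4c.dm Y ≤ 2 → Y ⊆ EK ev z h := by
  intro Y hY hd
  by_cases hne : ∃ w ∈ Y, w ≠ 0
  · exact P.sub_EK hY (h11 RP3 (KK ev z) (eK ev z) h P.ks _ (P.bas_Fa hY hne)
      (Pt.bas_dm.trans hd))
  · push Not at hne
    intro w hw
    rw [hne w hw]
    exact P.zero_EK

theorem Pt.fill (P : Pt F ev z h) (hF : C32.T4b.S_Fill) (hN : LNStmt) :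
    ∀ Y, T4c.Fc (T4c.Du (LK ev z)) Y → ¬ Y ⊆ EK ev z h → ∀ k : KK ev z,
      (∀ y ∈ Y, ⟪y, k⟫ = 0) → ∀ c ∈ inU F {y : RP3 | 0 < ⟪vK ev z y, k⟫} 1, sbd F 0 c = 0 →
        IsBdry F 1 c := by
  intro Y hY hE k hk c hc hcyc
  have hset : {y : RP3 | 0 < ⟪vK ev z y, k⟫} = {y | 0 < ev (k : W) y} := by
    ext y
    rw [Set.mem_setOf_eq, inner_vK]
    exact Iff.rfl
  rw [hset] at hc
  obtain ⟨C, hC, hCU, hcC⟩ := Ver.tSupp F RP3 _ 1 c hc
  obtain ⟨d, hd, hCd⟩ : ∃ d : ℝ, 0 < d ∧ C ⊆ {y | d ≤ ev (k : W) y} := by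
    rcases C.eq_empty_or_nonempty with h0 | h0
    · exact ⟨1, one_pos, by rw [h0]; exact Set.empty_subset _⟩
    · obtain ⟨y₀, hy₀, hmin⟩ := hC.exists_isMinOn h0 (P.sys.cont (k : W)).continuousOn
      exact ⟨ev (k : W) y₀, hCU hy₀, fun y hy => hmin hy⟩
  have hQ : IsClosed {y | d ≤ ev (k : W) y} := isClosed_le continuous_const (P.sys.cont _)
  have hEv : Even {y | d ≤ ev (k : W) y} := by
    by_contra hodd
    have hne : ∃ w ∈ Y, w ≠ 0 := by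
      by_contra hn
      push Not at hn
      apply hE
      intro w hw
      rw [hn w hw]
      exact P.zero_EK
    refine hE (P.sub_EK hY (hF F ev P.sys (KK ev z) (KK ev z).subtype h P.ks
      (fun l => hN F ev P.sys z P.reg (l : W) l.2) _ (P.bas_Fa hY hne) _ hQ hodd ?_))
    intro y hy
    have h1 : 0 < ev (k : W) y := lt_of_lt_of_le hd hy
    have h2 : 0 < ev (h : W) y := P.ks.posh (k := k) h1.ne'
    refine ⟨h2, fun e he => ⟨k, fun h3 => ?_⟩⟩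
    have h4 : e k = 0 := by
      rw [← inner_vec]
      exact hk _ he.2
    rw [h4] at h3
    exact (div_pos h1 h2).ne h3
  exact bdry_of_even hEv (inU_mono hCd hcC) hcyc

end C3

end TightRP
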